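import Mathlib

/-!
Bounding lemma: the relation `(U + ν f + x) f^(p-1) = ∑ z^i w^j Y i j ^ p` with `U = Y 0 0`
forces the outer degree of `f` to be at most the outer degree of `x`.
-/

namespace Pool.Agent.DLink

open Polynomial Finset

section coeffpow

variable {A : Type*} [CommRing A] (p : ℕ) [hp : Fact p.Prime] [CharP A p]

theorem coeff_pow_char (g : A[X]) (n : ℕ) :
    (g ^ p).coeff n = if p ∣ n then (g.coeff (n / p)) ^ p else 0 := by
  rw [← map_frobenius_expand p g, coeff_map, coeff_expand hp.out.pos]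
  split_ifs with h
  · simp [frobenius_def]
  · simp

theorem coeff_pow_char_mul (g : A[X]) (n : ℕ) :
    (g ^ p).coeff (p * n) = (g.coeff n) ^ p := by
  rw [coeff_pow_char, if_pos (dvd_mul_right p n), Nat.mul_div_cancel_left _ hp.out.pos]

/-- the coefficient of `X ^ (p * n)` in `∑ i<p, X ^ i * S i ^ p`. -/
theorem coeff_sum_X_pow (S : ℕ → A[X]) (n : ℕ) :
    (∑ i ∈ range p, X ^ i * (S i) ^ p).coeff (p * n) = (S 0).coeff n ^ p := by
  rw [finsetSum_coeff]
  rw [Finset.sum_eq_single_of_mem 0 (by simpa using hp.out.pos)]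
  · simp [coeff_pow_char_mul]
  · intro i hi hi0
    rw [mem_range] at hi
    rw [coeff_X_pow_mul']
    split_ifs with h
    · rw [coeff_pow_char, if_neg]
      intro hd
      have h2 : p ∣ i := by
        have := (Nat.dvd_sub (dvd_mul_right p n) hd)
        rwa [Nat.sub_sub_self h] at this
      exact absurd (Nat.le_of_dvd (Nat.pos_of_ne_zero hi0) h2) (by omega)
    · rfl

end coeffpow

section bound

variable {K : Type*} [Field K] (p : ℕ) [hp : Fact p.Prime] [CharP K p]

/-- if `∑ X^i a_i^p = 0` in `K[X]` then `a_0 = 0` and more: all vanish. -/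
theorem sum_X_pow_eq_zero (a : ℕ → K[X])
    (h : ∑ i ∈ range p, X ^ i * (a i) ^ p = 0) : ∀ i < p, a i = 0 := by
  intro i hi
  ext n
  have h1 : (∑ i ∈ range p, X ^ i * (a i) ^ p).coeff (p * n + i) = 0 := by rw [h]; simp
  rw [finsetSum_coeff, Finset.sum_eq_single_of_mem i (by simpa using hi)] at h1
  · rw [coeff_X_pow_mul, coeff_pow_char_mul] at h1
    simpa using pow_eq_zero_iff (hp.out.ne_zero) |>.1 h1
  · intro j hj hji
    rw [mem_range] at hj
    rw [coeff_X_pow_mul']
    split_ifs with hle
    · rw [coeff_pow_char, if_neg]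
      intro hd
      apply hji
      have h3 : (p * n + i) ≡ j [MOD p] := by
        exact ((Nat.modEq_iff_dvd' hle).2 hd).symm
      have h4 : i ≡ j [MOD p] := by
        have : p * n + i ≡ i [MOD p] := by simp [Nat.ModEq]
        exact this.symm.trans h3
      have := Nat.ModEq.eq_of_lt_of_lt h4 hi hj
      exact this.symm
    · rfl

/-- inner step. -/
theorem inner_step (ν : K) (hν : ∀ t : K, t ^ p - t ≠ ν) (a : ℕ → K[X]) (b : K[X])
    (h : (a 0 + C ν * b) * b ^ (p - 1) = ∑ i ∈ range p, X ^ i * (a i) ^ p) : b = 0 := by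
  by_contra hb
  have hp1 : 1 < p := hp.out.one_lt
  set v := b.natDegree with hv
  set E := (a 0).natDegree with hE
  have hbl : b.coeff v ≠ 0 := by
    rw [hv, coeff_natDegree]; exact leadingCoeff_ne_zero.2 hb
  -- E ≤ v
  have hEv : E ≤ v := by
    by_contra hlt
    push Not at hlt
    have h1 := congrArg (fun q => q.coeff (p * E)) h
    simp only [coeff_sum_X_pow] at h1
    have ha0 : a 0 ≠ 0 := by
      intro h0
      rw [h0] at hE
      simp at hE
      omega
    have h2 : ((a 0).coeff E) ^ p ≠ 0 := by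
      apply pow_ne_zero
      rw [hE, coeff_natDegree]; exact leadingCoeff_ne_zero.2 ha0
    rw [← h1] at h2
    apply h2
    apply coeff_eq_zero_of_natDegree_lt
    have h3 : ((a 0 + C ν * b) * b ^ (p - 1)).natDegree ≤ E + (p - 1) * v := by
      refine (natDegree_mul_le).trans ?_
      refine add_le_add ?_ ((natDegree_pow_le).trans le_rfl)
      refine (natDegree_add_le _ _).trans ?_
      refine max_le le_rfl ?_
      refine (natDegree_C_mul_le _ _).trans hlt.le
    refine lt_of_le_of_lt h3 ?_
    obtain ⟨k, rfl⟩ : ∃ k, p = k + 1 := ⟨p - 1, by omega⟩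
    simp only [Nat.add_sub_cancel]
    have : k * v < k * E := Nat.mul_lt_mul_of_pos_left hlt (by omega)
    nlinarith
  have h1 := congrArg (fun q => q.coeff (p * v)) h
  simp only [coeff_sum_X_pow] at h1
  obtain ⟨k, hk⟩ : ∃ k, p = k + 1 := ⟨p - 1, by omega⟩
  have h4 : ((a 0 + C ν * b) * b ^ (p - 1)).coeff (p * v)
      = ((a 0).coeff v + ν * b.coeff v) * (b.coeff v) ^ (p - 1) := by
    have e1 : p * v = v + (p - 1) * v := by
      rw [hk]; simp only [Nat.add_sub_cancel]; ring
    rw [e1, coeff_mul_add_eq_of_natDegree_le (df := v) (dg := (p - 1) * v)]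
    · rw [coeff_pow_of_natDegree_le hv.ge]
      simp only [coeff_add, coeff_C_mul]
    · refine (natDegree_add_le _ _).trans (max_le hEv ?_)
      exact natDegree_C_mul_le _ _
    · exact natDegree_pow_le
  rw [h4] at h1
  set t := (a 0).coeff v / b.coeff v with ht
  have h5 : (a 0).coeff v = t * b.coeff v := by
    rw [ht]; field_simp
  rw [h5] at h1
  apply hν t
  have h6 : (t + ν) * (b.coeff v) ^ p = t ^ p * (b.coeff v) ^ p := by
    calc (t + ν) * (b.coeff v) ^ p = (t * b.coeff v + ν * b.coeff v) * b.coeff v ^ (p - 1) := by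
          rw [hk]; simp only [Nat.add_sub_cancel]; ring
      _ = _ := by rw [h1, mul_pow]
  have h7 := mul_right_cancel₀ (pow_ne_zero p hbl) h6
  rw [← h7]; ring

/-- the bounding lemma. -/
theorem outer_step (ν : K) (hν : ∀ t : K, t ^ p - t ≠ ν) (f x : K[X][X])
    (Y : ℕ → ℕ → K[X][X])
    (h : (Y 0 0 + C (C ν) * f + x) * f ^ (p - 1)
      = ∑ j ∈ range p, X ^ j * ∑ i ∈ range p, (C X) ^ i * (Y i j) ^ p)
    (hf : f ≠ 0) : f.degree ≤ x.degree := by
  by_contra hlt
  push Not at hlt
  have hp1 : 1 < p := hp.out.one_lt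
  set M := f.natDegree with hM
  have hxM : x.coeff M = 0 := by
    apply coeff_eq_zero_of_degree_lt
    rw [hM, ← degree_eq_natDegree hf]; exact hlt
  have hxn : x.natDegree ≤ M := natDegree_le_natDegree hlt.le
  -- coefficient of the right-hand side
  have hR : ∀ n, (∑ j ∈ range p, X ^ j * ∑ i ∈ range p, (C X) ^ i * (Y i j) ^ p : K[X][X]).coeff
      (p * n) = ∑ i ∈ range p, X ^ i * ((Y i 0).coeff n) ^ p := by
    intro n
    rw [finsetSum_coeff, Finset.sum_eq_single_of_mem 0 (by simpa using hp.out.pos)]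
    · simp only [pow_zero, one_mul]
      rw [finsetSum_coeff]
      refine Finset.sum_congr rfl fun i _ => ?_
      rw [← C_pow, coeff_C_mul, coeff_pow_char_mul]
    · intro j hj hj0
      rw [mem_range] at hj
      rw [coeff_X_pow_mul']
      split_ifs with hle
      · rw [finsetSum_coeff]
        refine Finset.sum_eq_zero fun i _ => ?_
        rw [← C_pow, coeff_C_mul, coeff_pow_char, if_neg, mul_zero]
        intro hd
        have h2 : p ∣ j := by
          have := (Nat.dvd_sub (dvd_mul_right p n) hd)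
          rwa [Nat.sub_sub_self hle] at this
        exact absurd (Nat.le_of_dvd (Nat.pos_of_ne_zero hj0) h2) (by omega)
      · rfl
  -- all `Y i 0` have degree at most `M`
  have hD : (Y 0 0).natDegree ≤ M := by
    set D := (range p).sup (fun i => (Y i 0).natDegree) with hDdef
    have hYD : ∀ i ∈ range p, (Y i 0).natDegree ≤ D := fun i hi =>
      Finset.le_sup (f := fun i => (Y i 0).natDegree) hi
    have h0D : (Y 0 0).natDegree ≤ D := hYD 0 (by simpa using hp.out.pos)
    refine h0D.trans ?_
    by_contra hDM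
    push Not at hDM
    have h1 := congrArg (fun q => q.coeff (p * D)) h
    simp only [hR] at h1
    have h3 : ((Y 0 0 + C (C ν) * f + x) * f ^ (p - 1)).natDegree ≤ D + (p - 1) * M := by
      refine (natDegree_mul_le).trans ?_
      refine add_le_add ?_ ((natDegree_pow_le).trans le_rfl)
      refine (natDegree_add_le _ _).trans ?_
      refine max_le ?_ (hxn.trans hDM.le)
      refine (natDegree_add_le _ _).trans ?_
      refine max_le h0D ?_
      exact (natDegree_C_mul_le _ _).trans hDM.le
    have h4 : ((Y 0 0 + C (C ν) * f + x) * f ^ (p - 1)).coeff (p * D) = 0 := by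
      apply coeff_eq_zero_of_natDegree_lt
      refine lt_of_le_of_lt h3 ?_
      obtain ⟨k, hk⟩ : ∃ k, p = k + 1 := ⟨p - 1, by omega⟩
      rw [hk]
      simp only [Nat.add_sub_cancel]
      have : k * M < k * D := Nat.mul_lt_mul_of_pos_left hDM (by omega)
      nlinarith
    rw [h4] at h1
    have h5 := sum_X_pow_eq_zero p (fun i => (Y i 0).coeff D) h1.symm
    -- some `Y i 0` attains degree `D`
    obtain ⟨i, hi, hiD⟩ := Finset.exists_mem_eq_sup (range p) ⟨0, by simpa using hp.out.pos⟩
      (fun i => (Y i 0).natDegree)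
    have h6 := h5 i (by simpa using hi)
    rw [hDdef, hiD] at h6
    rw [coeff_natDegree, leadingCoeff_eq_zero] at h6
    have h7 : D = 0 := by rw [hDdef, hiD, h6]; simp
    omega
  have h1 := congrArg (fun q => q.coeff (p * M)) h
  simp only [hR] at h1
  obtain ⟨k, hk⟩ : ∃ k, p = k + 1 := ⟨p - 1, by omega⟩
  have h4 : ((Y 0 0 + C (C ν) * f + x) * f ^ (p - 1)).coeff (p * M)
      = ((Y 0 0).coeff M + C ν * f.coeff M) * (f.coeff M) ^ (p - 1) := by
    have e1 : p * M = M + (p - 1) * M := by
      rw [hk]; simp only [Nat.add_sub_cancel]; ring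
    rw [e1, coeff_mul_add_eq_of_natDegree_le (df := M) (dg := (p - 1) * M)]
    · rw [coeff_pow_of_natDegree_le hM.ge]
      simp only [coeff_add, coeff_C_mul, hxM, add_zero]
    · refine (natDegree_add_le _ _).trans (max_le ?_ hxn)
      refine (natDegree_add_le _ _).trans (max_le hD ?_)
      exact natDegree_C_mul_le _ _
    · exact natDegree_pow_le
  rw [h4] at h1
  have h8 := inner_step p ν hν (fun i => (Y i 0).coeff M) (f.coeff M) h1
  exact hf (leadingCoeff_eq_zero.1 (by rw [← coeff_natDegree]; exact h8))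

end bound

end Pool.Agent.DLink
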