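import Mathlib
import Pool.Agent.Lib.MP_064548_lc.Bound

/-!
The Cartier type operator on `K[Z][W]` and solvability of `V - C(V f^(p-1)) = u` for nilpotent `u`.
-/

namespace Pool.Agent.DLink

open Polynomial Finset

section cart

variable {A : Type*} [CommRing A] (p : ℕ)

/-- underlying function of `cart`. -/
noncomputable def cartFun (ψ : A →+ A) (g : A[X]) : A[X] :=
  ∑ n ∈ range (g.natDegree + 1), monomial n (ψ (g.coeff (p * n)))

theorem coeff_cartFun (hp : 0 < p) (ψ : A →+ A) (g : A[X]) (n : ℕ) :
    (cartFun p ψ g).coeff n = ψ (g.coeff (p * n)) := by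
  unfold cartFun
  rw [finsetSum_coeff]
  by_cases h : n ∈ range (g.natDegree + 1)
  · rw [Finset.sum_eq_single_of_mem n h]
    · simp
    · intro m _ hmn
      rw [coeff_monomial, if_neg hmn]
  · rw [Finset.sum_eq_zero]
    · rw [mem_range, not_lt] at h
      have h1 : n ≤ p * n := Nat.le_mul_of_pos_left n hp
      rw [coeff_eq_zero_of_natDegree_lt (by omega), map_zero]
    · intro m hm
      rw [coeff_monomial, if_neg]
      rintro rfl
      exact h hm

/-- the operator with coefficients `ψ (g_{p n})`. -/
noncomputable def cart [hp : Fact p.Prime] (ψ : A →+ A) : A[X] →+ A[X] where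
  toFun := cartFun p ψ
  map_zero' := by
    ext n
    rw [coeff_cartFun p hp.out.pos]; simp
  map_add' f g := by
    ext n
    rw [coeff_add, coeff_cartFun p hp.out.pos, coeff_cartFun p hp.out.pos,
      coeff_cartFun p hp.out.pos]; simp

variable [hp : Fact p.Prime]

@[simp] theorem coeff_cart (ψ : A →+ A) (g : A[X]) (n : ℕ) :
    (cart p ψ g).coeff n = ψ (g.coeff (p * n)) :=
  coeff_cartFun p hp.out.pos ψ g n

theorem cart_pow_mul [CharP A p] (ψ : A →+ A) (hψ : ∀ a b, ψ (a ^ p * b) = a * ψ b)
    (g b : A[X]) : cart p ψ (g ^ p * b) = g * cart p ψ b := by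
  induction g using Polynomial.induction_on' with
  | add g h hg hh =>
    rw [add_pow_char, add_mul, map_add, hg, hh, add_mul]
  | monomial m a =>
    ext n
    rw [coeff_cart, monomial_pow, ← C_mul_X_pow_eq_monomial, ← C_mul_X_pow_eq_monomial,
      mul_assoc, mul_assoc, coeff_C_mul, coeff_C_mul, coeff_X_pow_mul', coeff_X_pow_mul', hψ]
    have : (m * p ≤ p * n) ↔ m ≤ n := by
      rw [mul_comm]; exact Nat.mul_le_mul_left_iff hp.out.pos
    simp only [this]
    split_ifs with h
    · rw [coeff_cart]
      congr 3
      rw [mul_comm m p, Nat.mul_sub]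
    · simp

end cart

section two

variable {K : Type*} [Field K] (p : ℕ) [hp : Fact p.Prime] [CharP K p] [PerfectRing K p]

/-- inverse Frobenius as an additive map. -/
noncomputable def psi : K →+ K := ((frobeniusEquiv K p).symm : K →+* K).toAddMonoidHom

theorem psi_apply (a : K) : psi p a = (frobeniusEquiv K p).symm a := rfl

theorem psi_pow (a : K) : (psi p a) ^ p = a := by
  rw [psi_apply]; exact frobeniusEquiv_symm_pow_p K p a

theorem psi_pow_mul (a b : K) : psi p (a ^ p * b) = a * psi p b := by
  rw [psi_apply, psi_apply, map_mul, frobeniusEquiv_symm_pow]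

/-- one-variable operator. -/
noncomputable def C1 : K[X] →+ K[X] := cart p (psi p)

/-- two-variable operator. -/
noncomputable def C2 : K[X][X] →+ K[X][X] := cart p (C1 p)

theorem C1_pow_mul (a b : K[X]) : C1 p (a ^ p * b) = a * C1 p b :=
  cart_pow_mul p _ (psi_pow_mul p) a b

theorem C2_pow_mul (a b : K[X][X]) : C2 p (a ^ p * b) = a * C2 p b :=
  cart_pow_mul p _ (C1_pow_mul p) a b

theorem coeff_C2 (g : K[X][X]) (l i : ℕ) :
    ((C2 p g).coeff l).coeff i = psi p ((g.coeff (p * l)).coeff (p * i)) := by
  simp [C2, C1]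

theorem C2_iter_pow_mul (n : ℕ) (a b : K[X][X]) :
    (C2 p)^[n] (a ^ (p ^ n) * b) = a * (C2 p)^[n] b := by
  induction n generalizing b with
  | zero => simp
  | succ n ih =>
    rw [Function.iterate_succ_apply, pow_succ, pow_mul, C2_pow_mul, ih,
      Function.iterate_succ_apply]

theorem coeff_C2_iter (n : ℕ) (g : K[X][X]) (l i : ℕ) :
    (((C2 p)^[n] g).coeff l).coeff i =
      (psi p)^[n] ((g.coeff (p ^ n * l)).coeff (p ^ n * i)) := by
  induction n generalizing g with
  | zero => simp
  | succ n ih =>
    rw [Function.iterate_succ_apply, ih, coeff_C2, Function.iterate_succ_apply,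
      show p * (p ^ n * l) = p ^ (n + 1) * l by ring,
      show p * (p ^ n * i) = p ^ (n + 1) * i by ring]

theorem psi_iter_zero (n : ℕ) : (psi p)^[n] (0 : K) = 0 := by
  induction n with
  | zero => rfl
  | succ n ih => rw [Function.iterate_succ_apply, map_zero, ih]

theorem natDegree_C2_iter_le (n M : ℕ) (g : K[X][X]) (hg : g.natDegree ≤ p ^ n * M) :
    ((C2 p)^[n] g).natDegree ≤ M := by
  rw [natDegree_le_iff_coeff_eq_zero]
  intro l hl
  ext i
  have h0 : g.coeff (p ^ n * l) = 0 := by
    apply coeff_eq_zero_of_natDegree_lt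
    refine lt_of_le_of_lt hg ?_
    exact Nat.mul_lt_mul_of_pos_left hl (pow_pos hp.out.pos _)
  rw [coeff_C2_iter, h0, coeff_zero, psi_iter_zero, coeff_zero]

/-- Frobenius decomposition. -/
theorem exists_decomp (g : K[X][X]) : ∃ Y : ℕ → ℕ → K[X][X], Y 0 0 = C2 p g ∧
    g = ∑ j ∈ range p, X ^ j * ∑ i ∈ range p, (C X) ^ i * (Y i j) ^ p := by
  have hp0 := hp.out.pos
  -- additivity
  have hadd : ∀ g h : K[X][X], (∃ Y : ℕ → ℕ → K[X][X], Y 0 0 = C2 p g ∧
      g = ∑ j ∈ range p, X ^ j * ∑ i ∈ range p, (C X) ^ i * (Y i j) ^ p) →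
      (∃ Y : ℕ → ℕ → K[X][X], Y 0 0 = C2 p h ∧
      h = ∑ j ∈ range p, X ^ j * ∑ i ∈ range p, (C X) ^ i * (Y i j) ^ p) →
      (∃ Y : ℕ → ℕ → K[X][X], Y 0 0 = C2 p (g + h) ∧
      g + h = ∑ j ∈ range p, X ^ j * ∑ i ∈ range p, (C X) ^ i * (Y i j) ^ p) := by
    rintro g h ⟨Y, hY0, hY⟩ ⟨Y', hY0', hY'⟩
    refine ⟨fun i j => Y i j + Y' i j, ?_, ?_⟩
    · simp only [hY0, hY0', map_add]
    · conv_lhs => rw [hY, hY']
      simp only [add_pow_char, mul_add, Finset.sum_add_distrib]
  induction g using Polynomial.induction_on' with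
  | add g h hg hh => exact hadd g h hg hh
  | monomial l a =>
    induction a using Polynomial.induction_on' with
    | add a b ha hb =>
      rw [map_add]; exact hadd _ _ ha hb
    | monomial i a =>
      refine ⟨fun i' j' => if i' = i % p ∧ j' = l % p then
        monomial (l / p) (monomial (i / p) (psi p a)) else 0, ?_, ?_⟩
      · ext l' i'
        beta_reduce
        rw [coeff_C2]
        by_cases h : 0 = i % p ∧ 0 = l % p
        · rw [if_pos h]
          have hi : i = p * (i / p) := (Nat.mul_div_cancel' (Nat.dvd_of_mod_eq_zero h.1.symm)).symm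
          have hl : l = p * (l / p) := (Nat.mul_div_cancel' (Nat.dvd_of_mod_eq_zero h.2.symm)).symm
          rw [coeff_monomial, coeff_monomial]
          have e1 : (l / p = l') ↔ (l = p * l') := by
            constructor
            · rintro rfl; exact hl
            · rintro rfl; exact Nat.mul_div_cancel_left _ hp0
          have e2 : (i / p = i') ↔ (i = p * i') := by
            constructor
            · rintro rfl; exact hi
            · rintro rfl; exact Nat.mul_div_cancel_left _ hp0
          by_cases h1 : l = p * l'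
          · rw [if_pos (e1.2 h1), if_pos h1, coeff_monomial, coeff_monomial]
            by_cases h2 : i = p * i'
            · rw [if_pos (e2.2 h2), if_pos h2]
            · rw [if_neg (fun h => h2 (e2.1 h)), if_neg h2, map_zero]
          · rw [if_neg (fun h => h1 (e1.1 h)), if_neg h1]; simp
        · rw [if_neg h]
          rw [coeff_monomial]
          by_cases h1 : l = p * l'
          · rw [if_pos h1, coeff_monomial]
            by_cases h2 : i = p * i'
            · exfalso; apply h
              rw [h1, h2]; simp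
            · rw [if_neg h2]; simp
          · rw [if_neg h1]; simp
      · rw [Finset.sum_eq_single_of_mem (l % p) (by simpa using Nat.mod_lt _ hp0)]
        · rw [Finset.sum_eq_single_of_mem (i % p) (by simpa using Nat.mod_lt _ hp0)]
          · beta_reduce
            rw [if_pos ⟨rfl, rfl⟩, monomial_pow, monomial_pow, psi_pow]
            have e1 : l = l % p + l / p * p := by
              rw [mul_comm]; exact (Nat.mod_add_div l p).symm
            have e2 : i = i % p + i / p * p := by
              rw [mul_comm]; exact (Nat.mod_add_div i p).symm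
            conv_lhs => rw [e1, e2]
            rw [← C_pow, ← monomial_zero_left, monomial_mul_monomial, X_pow_mul_monomial,
              X_pow_mul_monomial]
            congr 1
            · rw [zero_add, add_comm]
            · rw [add_comm]
          · intro i' _ hi'
            beta_reduce
            rw [if_neg (fun h => hi' h.1), zero_pow hp.out.ne_zero, mul_zero]
        · intro j' _ hj'
          rw [Finset.sum_eq_zero, mul_zero]
          intro i' _
          beta_reduce
          rw [if_neg (fun h => hj' h.2), zero_pow hp.out.ne_zero, mul_zero]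

/-- the twisted operator. -/
noncomputable def Tf (f : K[X][X]) : K[X][X] →+ K[X][X] :=
  (C2 p).comp (AddMonoidHom.mulRight (f ^ (p - 1)))

theorem Tf_apply (f u : K[X][X]) : Tf p f u = C2 p (u * f ^ (p - 1)) := rfl

theorem Tf_iter (f u : K[X][X]) (n : ℕ) :
    (Tf p f)^[n] u = (C2 p)^[n] (u * f ^ (p ^ n - 1)) := by
  induction n generalizing u with
  | zero => simp
  | succ n ih =>
    rw [Function.iterate_succ_apply, ih, Tf_apply, Function.iterate_succ_apply]
    have h1 : 1 ≤ p ^ n := Nat.one_le_pow _ _ hp.out.pos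
    have h2 := hp.out.pos
    obtain ⟨a, ha⟩ : ∃ a, p ^ n = a + 1 := ⟨p ^ n - 1, by omega⟩
    have h3 : p ^ (n + 1) - 1 = (p - 1) + a * p := by
      rw [pow_succ, ha, add_mul, one_mul]; omega
    have h4 : C2 p (u * f ^ (p ^ (n + 1) - 1)) = C2 p (u * f ^ (p - 1)) * f ^ (p ^ n - 1) := by
      rw [h3, ha, Nat.add_sub_cancel, mul_comm (C2 p _) (f ^ a), ← C2_pow_mul, ← pow_mul,
        pow_add]
      congr 1
      ring
    rw [h4]

theorem exists_of_nilpotent {M : Type*} [AddCommGroup M] (T : M →+ M) (N : ℕ) :
    ∀ u : M, (T : M → M)^[N] u = 0 → ∃ V, V - T V = u := by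
  induction N with
  | zero => intro u h; exact ⟨0, by simpa using h.symm⟩
  | succ N ih =>
    intro u h
    rw [Function.iterate_succ_apply] at h
    obtain ⟨V, hV⟩ := ih _ h
    refine ⟨V + u, ?_⟩
    rw [map_add, ← hV]
    abel

end two

end Pool.Agent.DLink
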