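import Mathlib
import Pool.Agent.Lib.MP_064548_lc.Cartier

/-!
Existence part: for `f = 1 + z w^(p^m) + z^(p^(m+1)) f0` there is `c ∈ K[z]` such that the relation
holds with `x = c (1 + w^(p^m))`.
-/

namespace Pool.Agent.DLink

open Polynomial Finset

section exist

variable {K : Type*} [Field K] (p : ℕ) [hp : Fact p.Prime] [CharP K p]

/-- coefficients of `(1 + w^q) * ∑_{b<Q} (-(z w^q))^b`. -/
theorem coeff_explicit (q Q b l : ℕ) (hb : b < Q) :
    ((((1 + X ^ q : K[X][X]) * ∑ i ∈ range Q, (-(C X * X ^ q : K[X][X])) ^ i).coeff l).coeff b) =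
      (-1) ^ b * ((if l = q * b then 1 else 0) + (if l = q * (b + 1) then 1 else 0)) := by
  have h1 : ∀ i : ℕ, (1 + X ^ q : K[X][X]) * (-(C X * X ^ q : K[X][X])) ^ i =
      C (C ((-1) ^ i) * X ^ i) * X ^ (q * i) + C (C ((-1) ^ i) * X ^ i) * X ^ (q * (i + 1)) := by
    intro i
    rw [neg_pow]
    simp only [C_mul, C_pow, C_neg, C_1, map_pow, map_neg, map_one]
    ring
  have hb1 : (C ((-1 : K) ^ b) * X ^ b : K[X]).coeff b = (-1) ^ b := by
    rw [coeff_C_mul_X_pow, if_pos rfl]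
  rw [Finset.mul_sum, finsetSum_coeff, finsetSum_coeff]
  rw [Finset.sum_eq_single_of_mem b (by simpa using hb)]
  · rw [h1, coeff_add, coeff_C_mul_X_pow, coeff_C_mul_X_pow, coeff_add,
      mul_add ((-1 : K) ^ b)]
    congr 1
    · split_ifs with h
      · rw [hb1, mul_one]
      · rw [coeff_zero, mul_zero]
    · split_ifs with h
      · rw [hb1, mul_one]
      · rw [coeff_zero, mul_zero]
  · intro i _ hi
    rw [h1, coeff_add, coeff_C_mul_X_pow, coeff_C_mul_X_pow, coeff_add]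
    have e : (C ((-1 : K) ^ i) * X ^ i : K[X]).coeff b = 0 := by
      rw [coeff_C_mul_X_pow, if_neg (fun h => hi h.symm)]
    split_ifs
    · rw [e, add_zero]
    · rw [e, coeff_zero, add_zero]
    · rw [e, coeff_zero, add_zero]
    · rw [coeff_zero, add_zero]

variable (m : ℕ) (f0 : K[X][X])

/-- the modified polynomial. -/
noncomputable def fmod : K[X][X] :=
  1 + C X * X ^ (p ^ m) + (C X) ^ (p ^ (m + 1)) * f0

/-- the auxiliary product. -/
noncomputable def uu : K[X][X] := (1 + X ^ (p ^ m)) * (fmod p m f0) ^ (p ^ (m + 1) - 1)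

theorem CX_prime : Prime (C X : K[X][X]) := Polynomial.prime_C_iff.2 Polynomial.prime_X

theorem CX_not_dvd_fmod : ¬ (C X : K[X][X]) ∣ fmod p m f0 := by
  intro h
  have h1 : (C X : K[X][X]) ∣ 1 := by
    have h2 : (C X : K[X][X]) ∣ C X * X ^ (p ^ m) + (C X) ^ (p ^ (m + 1)) * f0 := by
      apply dvd_add
      · exact dvd_mul_right _ _
      · apply Dvd.dvd.mul_right
        apply dvd_pow_self
        exact pow_ne_zero _ hp.out.ne_zero
    have h3 := dvd_sub h h2
    have h4 : fmod p m f0 - (C X * X ^ (p ^ m) + (C X) ^ (p ^ (m + 1)) * f0) = 1 := by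
      unfold fmod; ring
    rwa [h4] at h3
  exact (CX_prime (K := K)).not_unit (isUnit_of_dvd_one h1)

theorem uu_mod : (C X : K[X][X]) ^ (p ^ (m + 1)) ∣
    uu p m f0 - (1 + X ^ (p ^ m)) *
      ∑ i ∈ range (p ^ (m + 1)), (-(C X * X ^ (p ^ m) : K[X][X])) ^ i := by
  set Q := p ^ (m + 1) with hQ
  set f := fmod p m f0 with hf
  set t : K[X][X] := C X * X ^ (p ^ m) with ht
  have hQ1 : 1 ≤ Q := Nat.one_le_pow _ _ hp.out.pos
  have e0 : uu p m f0 = (1 + X ^ (p ^ m)) * f ^ (Q - 1) := rfl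
  rw [e0, ← mul_sub]
  apply Dvd.dvd.mul_left
  -- cancel f
  have hcop : ∀ v : K[X][X], (C X) ^ Q ∣ f * v → (C X) ^ Q ∣ v := by
    intro v hv
    exact (CX_prime (K := K)).pow_dvd_of_dvd_mul_left Q (CX_not_dvd_fmod p m f0) hv
  apply hcop
  have e1 : f * f ^ (Q - 1) = f ^ Q := by
    rw [← pow_succ', Nat.sub_add_cancel hQ1]
  have e2 : f ^ Q = 1 + (C X) ^ Q * ((X ^ (p ^ m)) ^ Q + ((C X) ^ (Q - 1)) ^ Q * f0 ^ Q) := by
    rw [hf]
    unfold fmod
    rw [hQ, add_pow_char_pow, add_pow_char_pow, one_pow, mul_pow, mul_pow, ← hQ]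
    have : ((C X : K[X][X]) ^ Q) ^ Q = (C X) ^ Q * ((C X) ^ (Q - 1)) ^ Q := by
      rw [← mul_pow, ← pow_succ', Nat.sub_add_cancel hQ1]
    rw [this]
    ring
  have e3 : f = 1 + t + (C X) ^ Q * f0 := rfl
  have e4 : (1 + t) * ∑ i ∈ range Q, (-t) ^ i = 1 - (-t) ^ Q := by
    have := mul_neg_geom_sum (-t) Q
    rw [← this]; ring
  have e5 : (-t) ^ Q = (C X) ^ Q * ((-1) ^ Q * (X ^ (p ^ m)) ^ Q) := by
    rw [neg_pow t, ht, mul_pow]; ring
  rw [mul_sub, e1, e2, e3, add_mul, e4, e5]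
  refine ⟨(X ^ (p ^ m)) ^ Q + ((C X) ^ (Q - 1)) ^ Q * f0 ^ Q + (-1) ^ Q * (X ^ (p ^ m)) ^ Q
    - f0 * ∑ i ∈ range Q, (-t) ^ i, ?_⟩
  ring

theorem coeff_of_dvd {Q b : ℕ} (hb : b < Q) (v : K[X][X]) (h : (C X : K[X][X]) ^ Q ∣ v) (l : ℕ) :
    (v.coeff l).coeff b = 0 := by
  obtain ⟨w, rfl⟩ := h
  rw [← C_pow, coeff_C_mul, coeff_X_pow_mul', if_neg (by omega)]

theorem coeff_uu (b l : ℕ) (hb : b < p ^ (m + 1)) :
    (((uu p m f0).coeff (p ^ (m + 1) * l)).coeff b) =
      (-1) ^ b * ((if p * l = b then 1 else 0) + (if p * l = b + 1 then 1 else 0)) := by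
  have h1 := coeff_of_dvd hb _ (uu_mod p m f0) (p ^ (m + 1) * l)
  rw [coeff_sub, coeff_sub, sub_eq_zero] at h1
  rw [h1, coeff_explicit _ _ _ _ hb]
  have hq : 0 < p ^ m := pow_pos hp.out.pos _
  have e1 : (p ^ (m + 1) * l = p ^ m * b) ↔ p * l = b := by
    rw [pow_succ, mul_assoc]; exact Nat.mul_right_inj (by omega)
  have e2 : (p ^ (m + 1) * l = p ^ m * (b + 1)) ↔ p * l = b + 1 := by
    rw [pow_succ, mul_assoc]; exact Nat.mul_right_inj (by omega)
  simp only [e1, e2]

theorem coeff_fmod_zero (l : ℕ) : ((fmod p m f0).coeff l).coeff 0 = if l = 0 then 1 else 0 := by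
  have h1 : (C X : K[X][X]) ^ 1 ∣ fmod p m f0 - 1 := by
    rw [pow_one]
    have : fmod p m f0 - 1 = C X * (X ^ (p ^ m) + (C X) ^ (p ^ (m + 1) - 1) * f0) := by
      unfold fmod
      have h2 : (C X : K[X][X]) ^ (p ^ (m + 1)) = C X * (C X) ^ (p ^ (m + 1) - 1) := by
        rw [← pow_succ', Nat.sub_add_cancel (Nat.one_le_pow _ _ hp.out.pos)]
      rw [h2]; ring
    rw [this]
    exact dvd_mul_right _ _
  have h2 := coeff_of_dvd (b := 0) one_pos _ h1 l
  rw [coeff_sub, coeff_sub, sub_eq_zero] at h2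
  rw [h2, coeff_one]
  split_ifs <;> simp

theorem natDegree_fmod_le (h0 : f0.natDegree ≤ p ^ m) : (fmod p m f0).natDegree ≤ p ^ m := by
  unfold fmod
  refine (natDegree_add_le _ _).trans (max_le ?_ ?_)
  · refine (natDegree_add_le _ _).trans (max_le ?_ ?_)
    · simp
    · exact (natDegree_C_mul_le _ _).trans (by simp)
  · rw [← C_pow]
    exact (natDegree_C_mul_le _ _).trans h0

theorem natDegree_uu_le (h0 : f0.natDegree ≤ p ^ m) :
    (uu p m f0).natDegree ≤ p ^ (m + 1) * p ^ m := by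
  unfold uu
  refine natDegree_mul_le.trans ?_
  have h1 : (1 + X ^ (p ^ m) : K[X][X]).natDegree ≤ p ^ m := by
    refine (natDegree_add_le _ _).trans (max_le ?_ ?_) <;> simp
  have h2 : ((fmod p m f0) ^ (p ^ (m + 1) - 1)).natDegree ≤ (p ^ (m + 1) - 1) * p ^ m :=
    natDegree_pow_le.trans (Nat.mul_le_mul_left _ (natDegree_fmod_le p m f0 h0))
  refine (add_le_add h1 h2).trans ?_
  have h3 : 1 ≤ p ^ (m + 1) := Nat.one_le_pow _ _ hp.out.pos
  obtain ⟨a, ha⟩ : ∃ a, p ^ (m + 1) = a + 1 := ⟨p ^ (m + 1) - 1, by omega⟩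
  rw [ha, Nat.add_sub_cancel]
  exact le_of_eq (by ring)

variable [PerfectRing K p]

theorem psi_iter_neg_one_pow (n b : ℕ) : (psi p)^[n] ((-1 : K) ^ b) = (-1) ^ b := by
  induction n with
  | zero => rfl
  | succ n ih =>
    rw [Function.iterate_succ_apply, psi_apply, map_pow, map_neg, map_one, ih]

theorem psi_iter_pow (n : ℕ) (a : K) : ((psi p)^[n] a) ^ (p ^ n) = a := by
  induction n generalizing a with
  | zero => simp
  | succ n ih =>
    rw [Function.iterate_succ_apply, pow_succ, pow_mul, ih, psi_pow]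

theorem C2_iter_add (n : ℕ) (a b : K[X][X]) :
    (C2 p)^[n] (a + b) = (C2 p)^[n] a + (C2 p)^[n] b := by
  induction n generalizing a b with
  | zero => rfl
  | succ n ih => rw [Function.iterate_succ_apply, map_add, ih, Function.iterate_succ_apply,
      Function.iterate_succ_apply]

theorem C2_iter_zero (n : ℕ) : (C2 p)^[n] (0 : K[X][X]) = 0 := by
  induction n with
  | zero => rfl
  | succ n ih => rw [Function.iterate_succ_apply, map_zero, ih]

theorem C2_iter_neg (n : ℕ) (a : K[X][X]) :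
    (C2 p)^[n] (-a) = -(C2 p)^[n] a := by
  have h := C2_iter_add p n (-a) a
  rw [neg_add_cancel, C2_iter_zero] at h
  exact eq_neg_of_add_eq_zero_left h.symm

theorem C2_iter_sum {ι : Type*} (s : Finset ι) (n : ℕ) (g : ι → K[X][X]) :
    (C2 p)^[n] (∑ i ∈ s, g i) = ∑ i ∈ s, (C2 p)^[n] (g i) := by
  classical
  induction s using Finset.induction_on with
  | empty => simp [C2_iter_zero]
  | insert a s ha ih => rw [Finset.sum_insert ha, Finset.sum_insert ha, C2_iter_add, ih]

theorem C2_iter_one (n : ℕ) : (C2 p)^[n] (1 : K[X][X]) = 1 := by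
  ext l i
  rw [coeff_C2_iter]
  have hq : 0 < p ^ n := pow_pos hp.out.pos _
  rw [coeff_one, coeff_one]
  have e1 : (p ^ n * l = 0) ↔ l = 0 := by
    rw [Nat.mul_eq_zero]; exact or_iff_right hq.ne'
  simp only [e1]
  split_ifs with h
  · rw [coeff_one, coeff_one]
    have e2 : (p ^ n * i = 0) ↔ i = 0 := by
      rw [Nat.mul_eq_zero]; exact or_iff_right hq.ne'
    simp only [e2]
    split_ifs with h'
    · simpa using psi_iter_neg_one_pow (K := K) p n 0
    · exact psi_iter_zero p n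
  · simp [psi_iter_zero]

theorem C2_iter_comb (n q : ℕ) (d : K[X]) (γ : Fin q → K[X]) (a : Fin q → ℕ) (u : K[X][X]) :
    (C2 p)^[n] (C (d ^ (p ^ n) - ∑ j, (γ j) ^ (p ^ n) * X ^ (a j)) * u) =
      C d * (C2 p)^[n] u - ∑ j, C (γ j) * (C2 p)^[n] ((C X) ^ (a j) * u) := by
  have e1 : C (d ^ (p ^ n) - ∑ j : Fin q, (γ j) ^ (p ^ n) * X ^ (a j)) * u =
      (C d) ^ (p ^ n) * u + - ∑ j : Fin q, ((C (γ j)) ^ (p ^ n) * ((C X) ^ (a j) * u)) := by
    have e2 : ∀ j : Fin q, C ((γ j) ^ (p ^ n) * X ^ (a j)) * u =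
        (C (γ j)) ^ (p ^ n) * ((C X) ^ (a j) * u) := by
      intro j
      rw [C_mul, C_pow, C_pow, mul_assoc]
    rw [C_sub, map_sum, sub_mul, Finset.sum_mul, Finset.sum_congr rfl (fun j _ => e2 j), C_pow,
      sub_eq_add_neg]
  rw [e1, C2_iter_add, C2_iter_neg, C2_iter_sum, C2_iter_pow_mul p n (C d) u, sub_eq_add_neg]
  refine congrArg₂ (· + ·) rfl (congrArg Neg.neg ?_)
  refine Finset.sum_congr rfl fun j _ => ?_
  exact C2_iter_pow_mul p n (C (γ j)) _

theorem aux_lin {M : Type*} [AddCommGroup M] {a b c d e : M} (h : a + b = c - d) (hd : d = e) :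
    c - b = e + a := by
  subst hd
  rw [sub_eq_iff_eq_add, add_assoc, h]; abel

/-- The linear algebra step. -/
theorem exists_c0 (h0 : f0.natDegree ≤ p ^ m) : ∃ c g : K[X], g.coeff 0 ≠ 0 ∧
    (C2 p)^[m + 1] (C c * uu p m f0) = C g * fmod p m f0 := by
  classical
  set q := p ^ m with hq
  set Q := p ^ (m + 1) with hQ
  set u := uu p m f0 with hu
  set f := fmod p m f0 with hf
  have hp0 := hp.out.pos
  have hQq : Q = p * q := by rw [hQ, hq, pow_succ, mul_comm]
  have hud : u.natDegree ≤ Q * q := natDegree_uu_le p m f0 h0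
  -- the elements
  set e0 := (C2 p)^[m + 1] u with he0
  let a : ℕ → ℕ := fun j => Q - p * (j + 1) + 1
  have hjp : ∀ j < q, p * (j + 1) ≤ Q := by
    intro j hj; rw [hQq]; exact Nat.mul_le_mul_left _ hj
  let es : ℕ → K[X][X] := fun j => (C2 p)^[m + 1] ((C X) ^ (a j) * u)
  have he0d : e0.natDegree ≤ q := natDegree_C2_iter_le p (m + 1) q u hud
  have hesd : ∀ j, (es j).natDegree ≤ q := by
    intro j
    apply natDegree_C2_iter_le p (m + 1) q
    rw [← C_pow]
    exact (natDegree_C_mul_le _ _).trans hud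
  have hfd : f.natDegree ≤ q := natDegree_fmod_le p m f0 h0
  have hQpos : 0 < Q := pow_pos hp0 _
  have he00 : ∀ l, (e0.coeff l).coeff 0 = if l = 0 then 1 else 0 := by
    intro l
    rw [he0, coeff_C2_iter, mul_zero, hu, coeff_uu p m f0 0 l hQpos]
    have e2 : ¬ (p * l = 0 + 1) := by
      intro h
      have : p ∣ 1 := ⟨l, by omega⟩
      exact hp.out.one_lt.ne' (Nat.dvd_one.1 this)
    rw [if_neg e2]
    by_cases hl : l = 0
    · rw [if_pos hl, if_pos (by rw [hl, mul_zero])]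
      simpa using psi_iter_neg_one_pow (K := K) p (m + 1) 0
    · rw [if_neg hl, if_neg (by simp [hl, hp0.ne'])]
      simpa using psi_iter_zero (K := K) p (m + 1)
  have hes0 : ∀ j l, ((es j).coeff l).coeff 0 = 0 := by
    intro j l
    show (((C2 p)^[m + 1] ((C X) ^ (a j) * u)).coeff l).coeff 0 = 0
    rw [coeff_C2_iter, mul_zero, ← C_pow, coeff_C_mul, coeff_X_pow_mul',
      if_neg (by show ¬ (Q - p * (j + 1) + 1 ≤ 0); omega)]
    exact psi_iter_zero p (m + 1)
  have hes1 : ∀ j < q, ∀ l, ((es j).coeff l).coeff 1 =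
      if l = j + 1 then (-1) ^ (p * (j + 1) - 1) else 0 := by
    intro j hj l
    have hjQ := hjp j hj
    have hpj : 1 ≤ p * (j + 1) := Nat.mul_pos hp0 (Nat.succ_pos j)
    show (((C2 p)^[m + 1] ((C X) ^ (a j) * u)).coeff l).coeff 1 = _
    rw [coeff_C2_iter, mul_one, ← C_pow, coeff_C_mul, coeff_X_pow_mul',
      if_pos (by show (Q - p * (j + 1) + 1 ≤ Q); omega)]
    have e1 : p ^ (m + 1) - a j = p * (j + 1) - 1 := by
      show Q - (Q - p * (j + 1) + 1) = _
      omega
    rw [e1, hu, coeff_uu p m f0 _ l (by show p * (j + 1) - 1 < Q; omega)]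
    have e2 : ¬ (p * l = p * (j + 1) - 1) := by
      intro h
      have h1 : p ∣ 1 := by
        have h2 : p ∣ p * (j + 1) - p * l := Nat.dvd_sub (dvd_mul_right _ _) (dvd_mul_right _ _)
        have h3 : p * (j + 1) - p * l = 1 := by omega
        rwa [h3] at h2
      exact hp.out.one_lt.ne' (Nat.dvd_one.1 h1)
    have e3 : (p * l = p * (j + 1) - 1 + 1) ↔ l = j + 1 := by
      rw [Nat.sub_add_cancel hpj]
      exact Nat.mul_right_inj hp0.ne'
    rw [if_neg e2]
    by_cases hl : l = j + 1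
    · rw [if_pos hl, if_pos (e3.2 hl), zero_add, mul_one]
      exact psi_iter_neg_one_pow p (m + 1) _
    · rw [if_neg hl, if_neg (fun h => hl (e3.1 h)), zero_add, mul_zero]
      exact psi_iter_zero p (m + 1)
  -- the matrix
  let Mt : Matrix (Fin (q + 1)) (Fin (q + 1)) K[X] := fun l j =>
    Fin.cases (f.coeff l) (fun i => divX ((es i).coeff l)) j
  let gv : Fin (q + 1) → K[X] := fun l => divX ((e0 - f).coeff l)
  let γ : Fin (q + 1) → K[X] := Matrix.mulVec (Matrix.adjugate Mt) gv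
  set d := Mt.det with hd
  have hmul : Matrix.mulVec Mt γ = d • gv := by
    show Matrix.mulVec Mt (Matrix.mulVec (Matrix.adjugate Mt) gv) = _
    rw [Matrix.mulVec_mulVec, Matrix.mul_adjugate, Matrix.smul_mulVec, Matrix.one_mulVec]
  have hd0 : d.coeff 0 ≠ 0 := by
    have h1 : d.coeff 0 = (evalRingHom (0 : K)) d := by
      simp [coeff_zero_eq_eval_zero]
    rw [h1, hd, RingHom.map_det]
    have h2 : (evalRingHom (0 : K)).mapMatrix Mt =
        Matrix.diagonal (fun j : Fin (q + 1) =>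
          Fin.cases (1 : K) (fun i : Fin q => (-1) ^ (p * ((i : ℕ) + 1) - 1)) j) := by
      ext l j
      rw [RingHom.mapMatrix_apply, Matrix.map_apply, Matrix.diagonal_apply]
      refine Fin.cases ?_ (fun i => ?_) j
      · show (evalRingHom (0 : K)) (f.coeff l) = _
        rw [coe_evalRingHom, ← coeff_zero_eq_eval_zero, hf, coeff_fmod_zero]
        by_cases hl : l = 0
        · subst hl; simp
        · have hl' : (l : ℕ) ≠ 0 := fun h => hl (Fin.ext h)
          rw [if_neg hl', if_neg hl]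
      · show (evalRingHom (0 : K)) (divX ((es i).coeff l)) = _
        rw [coe_evalRingHom, ← coeff_zero_eq_eval_zero, coeff_divX, hes1 i i.2 l]
        by_cases hl : l = i.succ
        · subst hl; simp
        · rw [if_neg hl, if_neg]
          intro h
          apply hl
          apply Fin.ext
          simpa using h
    rw [h2, Matrix.det_diagonal]
    rw [Finset.prod_ne_zero_iff]
    intro j _
    refine Fin.cases ?_ (fun i => ?_) j
    · simp
    · simp
  -- polynomial identity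
  have hkey : C (X * γ 0) * f + ∑ j : Fin q, C (γ j.succ) * es j = C d * (e0 - f) := by
    ext1 l
    by_cases hl : l < q + 1
    · have h1 := congrFun hmul ⟨l, hl⟩
      rw [Matrix.mulVec, dotProduct, Fin.sum_univ_succ] at h1
      have h2 := congrArg (fun t => X * t) h1
      rw [coeff_add, coeff_C_mul, finsetSum_coeff, coeff_C_mul]
      have e1 : (e0 - f).coeff l = X * gv ⟨l, hl⟩ := by
        show _ = X * divX ((e0 - f).coeff l)
        conv_lhs => rw [← X_mul_divX_add ((e0 - f).coeff l)]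
        rw [coeff_sub, coeff_sub, he00, hf, coeff_fmod_zero]
        simp
      have e2 : ∀ j : Fin q, (es j).coeff l = X * Mt ⟨l, hl⟩ j.succ := by
        intro j
        show _ = X * divX ((es j).coeff l)
        conv_lhs => rw [← X_mul_divX_add ((es j).coeff l), hes0]
        simp
      have e3 : Mt ⟨l, hl⟩ 0 = f.coeff l := rfl
      rw [e1]
      rw [e3, Pi.smul_apply, smul_eq_mul] at h2
      rw [mul_left_comm (d) X, ← h2, mul_add, Finset.mul_sum]
      congr 1
      · ring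
      · refine Finset.sum_congr rfl fun j _ => ?_
        rw [coeff_C_mul, e2]; ring
    · rw [coeff_eq_zero_of_natDegree_lt, coeff_eq_zero_of_natDegree_lt]
      · refine lt_of_le_of_lt (natDegree_C_mul_le _ _) ?_
        refine lt_of_le_of_lt (natDegree_sub_le _ _) ?_
        refine lt_of_le_of_lt (max_le he0d hfd) (by omega)
      · refine lt_of_le_of_lt (natDegree_add_le _ _) ?_
        refine lt_of_le_of_lt (max_le ((natDegree_C_mul_le _ _).trans hfd) ?_) (show q < l by omega)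
        refine natDegree_sum_le_of_forall_le _ _ fun j _ => ?_
        exact (natDegree_C_mul_le _ _).trans (hesd j)
  refine ⟨d ^ Q - ∑ j : Fin q, (γ j.succ) ^ Q * X ^ (a j), d + X * γ 0, ?_, ?_⟩
  · rw [coeff_add, mul_coeff_zero, coeff_X_zero, zero_mul, add_zero]
    exact hd0
  · have h3 := C2_iter_comb p (m + 1) q d (fun j => γ j.succ) (fun j => a j) u
    refine h3.trans ?_
    rw [C_add, add_mul]
    have h4 := hkey
    rw [mul_sub] at h4
    exact aux_lin h4 rfl

/-- The existence theorem. -/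
theorem exists_rel (ν : K) (h0 : f0.natDegree ≤ p ^ m) :
    ∃ (c : K[X]) (Y : ℕ → ℕ → K[X][X]),
      (Y 0 0 + C (C ν) * fmod p m f0 + C c * (1 + X ^ (p ^ m))) * (fmod p m f0) ^ (p - 1)
        = ∑ j ∈ range p, X ^ j * ∑ i ∈ range p, (C X) ^ i * (Y i j) ^ p := by
  obtain ⟨c0, g, hg, hc0⟩ := exists_c0 p m f0 h0
  set f := fmod p m f0 with hf
  set Q := p ^ (m + 1) with hQ
  have hQ1 : 1 ≤ Q := Nat.one_le_pow _ _ hp.out.pos
  set ν' := (psi p)^[m + 1] ν with hν'
  have hνQ : ν' ^ Q = ν := psi_iter_pow p (m + 1) ν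
  set κ := - ν' / g.coeff 0 with hκ
  set c := C (κ ^ Q) * c0 with hc
  set v : K[X] := C ν' + C κ * g with hv
  have hv0 : v.coeff 0 = 0 := by
    rw [hv, coeff_add, coeff_C_zero, coeff_C_mul, hκ]
    field_simp
    ring
  set w : K[X][X] := C (C ν) * f + C c * (1 + X ^ (p ^ m)) with hw
  have h1 : (Tf p f)^[m + 1] w = C v * f := by
    rw [Tf_iter, ← hQ]
    have e1 : w * f ^ (Q - 1) = (C (C ν') * f) ^ Q * 1 + (C (C κ)) ^ Q * (C c0 * uu p m f0) := by
      have e2 : uu p m f0 = (1 + X ^ (p ^ m)) * f ^ (Q - 1) := rfl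
      have e3 : f ^ Q = f * f ^ (Q - 1) := by
        rw [← pow_succ', Nat.sub_add_cancel hQ1]
      rw [e2, mul_pow, e3, ← C_pow, ← C_pow, hνQ, ← C_pow, ← C_pow, hw, hc, C_mul]
      ring
    rw [e1, C2_iter_add, hQ, C2_iter_pow_mul, C2_iter_pow_mul, C2_iter_one, hc0, hv, C_add, C_mul]
    ring
  -- nilpotency
  set r := v.natDegree + 1 with hr
  have h2 : (Tf p f)^[r] (C v * f) = 0 := by
    rw [Tf_iter]
    have hr1 : 1 ≤ p ^ r := Nat.one_le_pow _ _ hp.out.pos
    have e1 : C v * f * f ^ (p ^ r - 1) = f ^ (p ^ r) * C v := by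
      have e3 : f ^ (p ^ r) = f * f ^ (p ^ r - 1) := by
        rw [← pow_succ', Nat.sub_add_cancel hr1]
      rw [e3]; ring
    rw [e1, C2_iter_pow_mul]
    have e2 : (C2 p)^[r] (C v : K[X][X]) = 0 := by
      ext l i
      rw [coeff_C2_iter, coeff_zero, coeff_zero, coeff_C]
      split_ifs with hl
      · by_cases hi : i = 0
        · subst hi
          rw [mul_zero, hv0, psi_iter_zero]
        · rw [coeff_eq_zero_of_natDegree_lt, psi_iter_zero]
          have h3 : r < p ^ r := Nat.lt_pow_self hp.out.one_lt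
          have h4 : p ^ r ≤ p ^ r * i := Nat.le_mul_of_pos_right _ (Nat.pos_of_ne_zero hi)
          omega
      · rw [coeff_zero, psi_iter_zero]
    rw [e2, mul_zero]
  have h3 : (Tf p f : K[X][X] → K[X][X])^[r + (m + 1)] w = 0 := by
    rw [Function.iterate_add_apply, h1, h2]
  obtain ⟨V, hV⟩ := exists_of_nilpotent (Tf p f) _ w h3
  obtain ⟨Y, hY0, hY⟩ := exists_decomp p (V * f ^ (p - 1))
  refine ⟨c, Y, ?_⟩
  rw [← hY, hY0, ← Tf_apply]
  have : V = Tf p f V + w := by rw [← hV]; abel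
  conv_rhs => rw [this]
  rw [hw]
  ring

end exist

end Pool.Agent.DLink
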