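import Mathlib

/-!
The norm form `x^2 + W x y + y^2` over `K[W][Z]`: its unit values come from `K[W]`, and the
Dickson polynomials give solutions with trace `W^(p^n)`.
-/

namespace Pool.Agent.DLink

open Polynomial

section aniso

variable {K : Type*} [Field K]

theorem aniso_aux (n : ℕ) : ∀ a b : K[X], a.natDegree ≤ n → a ^ 2 + X * a * b + b ^ 2 = 0 →
    a = 0 ∧ b = 0 := by
  have key : ∀ a b : K[X], a ^ 2 + X * a * b + b ^ 2 = 0 →
      ∃ a' b' : K[X], a = (X - C 2) * a' ∧ b = (X - C 2) * b' := by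
    intro a b h
    have hπ : Prime (X - C (2 : K)) := prime_X_sub_C 2
    have e1 : (a + b) ^ 2 = (X - C 2) * (-(a * b)) := by
      have : (C (2 : K) : K[X]) = 2 := map_ofNat C 2
      rw [this]
      linear_combination h
    have d1 : (X - C (2 : K)) ∣ a + b := by
      apply hπ.dvd_of_dvd_pow (n := 2)
      exact ⟨_, e1⟩
    obtain ⟨s, hs⟩ := d1
    have e2 : (X - C (2 : K)) * s ^ 2 = -(a * b) := by
      apply mul_left_cancel₀ hπ.ne_zero
      rw [← e1, hs]; ring
    have d2 : (X - C (2 : K)) ∣ a * b := by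
      rw [← dvd_neg]
      exact ⟨_, e2.symm⟩
    rcases hπ.dvd_or_dvd d2 with ⟨a', ha⟩ | ⟨b', hb⟩
    · refine ⟨a', s - a', ha, ?_⟩
      rw [mul_sub, ← hs, ← ha]; ring
    · refine ⟨s - b', b', ?_, hb⟩
      rw [mul_sub, ← hs, ← hb]; ring
  induction n with
  | zero =>
    intro a b hd h
    obtain ⟨a', b', ha, hb⟩ := key a b h
    have ha0 : a = 0 := by
      by_contra hne
      have : a' ≠ 0 := by rintro rfl; simp at ha; exact hne ha
      have h1 : a.natDegree = 1 + a'.natDegree := by
        rw [ha, natDegree_mul (X_sub_C_ne_zero 2) this, natDegree_X_sub_C]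
      omega
    subst ha0
    refine ⟨rfl, ?_⟩
    simpa using h
  | succ n ih =>
    intro a b hd h
    by_cases ha0 : a = 0
    · subst ha0
      refine ⟨rfl, ?_⟩
      simpa using h
    obtain ⟨a', b', ha, hb⟩ := key a b h
    have ha' : a' ≠ 0 := by rintro rfl; simp at ha; exact ha0 ha
    have h1 : a.natDegree = 1 + a'.natDegree := by
      rw [ha, natDegree_mul (X_sub_C_ne_zero 2) ha', natDegree_X_sub_C]
    have h2 : a' ^ 2 + X * a' * b' + b' ^ 2 = 0 := by
      have h3 : (X - C (2 : K)) ^ 2 * (a' ^ 2 + X * a' * b' + b' ^ 2) = 0 := by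
        rw [← h, ha, hb]; ring
      rcases mul_eq_zero.1 h3 with h4 | h4
      · exact absurd (pow_eq_zero_iff (two_ne_zero) |>.1 h4) (X_sub_C_ne_zero 2)
      · exact h4
    have := ih a' b' (by omega) h2
    exact absurd this.1 ha'

theorem aniso (a b : K[X]) (h : a ^ 2 + X * a * b + b ^ 2 = 0) : a = 0 ∧ b = 0 :=
  aniso_aux _ a b le_rfl h

theorem pell_const (x y : K[X][X]) (h : x ^ 2 + C X * x * y + y ^ 2 = 1) :
    x.natDegree = 0 ∧ y.natDegree = 0 := by
  set D := max x.natDegree y.natDegree with hD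
  have hx : x.natDegree ≤ D := le_max_left _ _
  have hy : y.natDegree ≤ D := le_max_right _ _
  rcases Nat.eq_zero_or_pos D with h0 | hpos
  · omega
  exfalso
  have h1 := congrArg (fun q => q.coeff (D + D)) h
  simp only [coeff_add, pow_two] at h1
  rw [coeff_mul_add_eq_of_natDegree_le hx hx, coeff_mul_add_eq_of_natDegree_le hy hy,
    mul_assoc, coeff_C_mul, coeff_mul_add_eq_of_natDegree_le hx hy, coeff_one,
    if_neg (by omega)] at h1
  have h2 := aniso (x.coeff D) (y.coeff D) (by rw [← h1]; ring)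
  rcases max_choice x.natDegree y.natDegree with hc | hc
  · rw [← hD] at hc
    have h3 := h2.1
    rw [hc, coeff_natDegree, leadingCoeff_eq_zero] at h3
    rw [h3] at hc
    simp at hc
    omega
  · rw [← hD] at hc
    have h3 := h2.2
    rw [hc, coeff_natDegree, leadingCoeff_eq_zero] at h3
    rw [h3] at hc
    simp at hc
    omega

end aniso

section dickson

variable {A : Type*} [CommRing A] (p : ℕ) [hp : Fact p.Prime] [CharP A p]

/-- the pair `(x_n, y_n)`. -/
def pell (w : A) : ℕ → A × A
  | 0 => (1, 0)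
  | n + 1 => (-(pell w n).2, (pell w n).1 + w * (pell w n).2)

theorem pell_norm (w : A) (n : ℕ) :
    (pell w n).1 ^ 2 + w * (pell w n).1 * (pell w n).2 + (pell w n).2 ^ 2 = 1 := by
  induction n with
  | zero => simp [pell]
  | succ n ih =>
    rw [← ih]
    simp only [pell]
    ring

theorem pell_trace (w : A) (n : ℕ) :
    2 * (pell w n).1 + w * (pell w n).2 = (dickson 1 (1 : A) n).eval w := by
  induction n using Nat.strong_induction_on with
  | _ n ih =>
    match n with
    | 0 => simp [pell]; norm_num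
    | 1 => simp [pell]
    | n + 2 =>
      have h1 := ih n (by omega)
      have h2 := ih (n + 1) (by omega)
      rw [dickson_add_two]
      simp only [eval_sub, eval_mul, eval_X, eval_C, one_mul]
      rw [← h1, ← h2]
      simp only [pell]
      ring

omit [CharP A p] in
theorem dickson_pow [CharP A p] (n : ℕ) : dickson 1 (1 : A) (p ^ n) = X ^ (p ^ n) := by
  induction n with
  | zero => simp
  | succ n ih =>
    rw [pow_succ, dickson_one_one_mul, ih, dickson_one_one_charP, X_pow_comp, ← pow_mul,
      mul_comm]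

theorem pell_exists (w : A) (n : ℕ) :
    ∃ x y : A, x ^ 2 + w * x * y + y ^ 2 = 1 ∧ 2 * x + w * y = w ^ (p ^ n) := by
  refine ⟨(pell w (p ^ n)).1, (pell w (p ^ n)).2, pell_norm w _, ?_⟩
  rw [pell_trace, dickson_pow p]
  simp

end dickson

end Pool.Agent.DLink
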