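import Mathlib
import Pool.Agent.Lib.MP_064548_lc.Bound
import Pool.Agent.Lib.MP_064548_lc.Pell
import Pool.Agent.Lib.MP_064548_lc.Cartier
import Pool.Agent.Lib.MP_064548_lc.Exist

/-!
Assembly: a finite-to-one Diophantine link from `K[W,Z]` to `K[Z]`, `K` a finite field.
Here `W = X 0` and `Z = X 1`.
-/

namespace Pool.Agent.DLink

open Polynomial Finset

section maps

variable {K : Type*} [Field K]

/-- `W ↦ X` (outer), `Z ↦ C X` (inner). -/
noncomputable def Phi1 : MvPolynomial (Fin 2) K →ₐ[K] K[X][X] :=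
  MvPolynomial.aeval (fun i : Fin 2 => if i = 0 then (X : K[X][X]) else C X)

/-- `W ↦ C X` (inner), `Z ↦ X` (outer). -/
noncomputable def Phi2 : MvPolynomial (Fin 2) K →ₐ[K] K[X][X] :=
  MvPolynomial.aeval (fun i : Fin 2 => if i = 0 then (C X : K[X][X]) else X)

@[simp] theorem Phi1_W : Phi1 (MvPolynomial.X 0 : MvPolynomial (Fin 2) K) = X := by
  simp [Phi1]

@[simp] theorem Phi1_Z : Phi1 (MvPolynomial.X 1 : MvPolynomial (Fin 2) K) = C X := by
  simp [Phi1]

@[simp] theorem Phi2_W : Phi2 (MvPolynomial.X 0 : MvPolynomial (Fin 2) K) = C X := by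
  simp [Phi2]

@[simp] theorem Phi2_Z : Phi2 (MvPolynomial.X 1 : MvPolynomial (Fin 2) K) = X := by
  simp [Phi2]

@[simp] theorem Phi1_C (a : K) : Phi1 (MvPolynomial.C a : MvPolynomial (Fin 2) K) = C (C a) := by
  simp [Phi1]

@[simp] theorem Phi2_C (a : K) : Phi2 (MvPolynomial.C a : MvPolynomial (Fin 2) K) = C (C a) := by
  simp [Phi2]

/-- inverse direction. -/
noncomputable def Psi1 : K[X][X] →+* MvPolynomial (Fin 2) K :=
  eval₂RingHom (aeval (MvPolynomial.X 1 : MvPolynomial (Fin 2) K) : K[X] →ₐ[K] _).toRingHom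
    (MvPolynomial.X 0)

/-- inverse direction for `Phi2`. -/
noncomputable def Psi2 : K[X][X] →+* MvPolynomial (Fin 2) K :=
  eval₂RingHom (aeval (MvPolynomial.X 0 : MvPolynomial (Fin 2) K) : K[X] →ₐ[K] _).toRingHom
    (MvPolynomial.X 1)

@[simp] theorem Psi1_X : Psi1 (X : K[X][X]) = MvPolynomial.X 0 := by simp [Psi1]

@[simp] theorem Psi1_C (c : K[X]) : Psi1 (C c : K[X][X]) =
    aeval (MvPolynomial.X 1 : MvPolynomial (Fin 2) K) c := by simp [Psi1]

@[simp] theorem Psi2_X : Psi2 (X : K[X][X]) = MvPolynomial.X 1 := by simp [Psi2]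

@[simp] theorem Psi2_C (c : K[X]) : Psi2 (C c : K[X][X]) =
    aeval (MvPolynomial.X 0 : MvPolynomial (Fin 2) K) c := by simp [Psi2]

theorem Psi1_Phi1 (f : MvPolynomial (Fin 2) K) : Psi1 (Phi1 f) = f := by
  have : (Psi1.comp (Phi1 : MvPolynomial (Fin 2) K →ₐ[K] K[X][X]).toRingHom) =
      RingHom.id (MvPolynomial (Fin 2) K) := by
    apply MvPolynomial.ringHom_ext
    · intro a
      simp
    · intro i
      fin_cases i <;> simp
  exact congrArg (fun g : MvPolynomial (Fin 2) K →+* MvPolynomial (Fin 2) K => g f) this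

theorem Psi2_Phi2 (f : MvPolynomial (Fin 2) K) : Psi2 (Phi2 f) = f := by
  have : (Psi2.comp (Phi2 : MvPolynomial (Fin 2) K →ₐ[K] K[X][X]).toRingHom) =
      RingHom.id (MvPolynomial (Fin 2) K) := by
    apply MvPolynomial.ringHom_ext
    · intro a
      simp
    · intro i
      fin_cases i <;> simp
  exact congrArg (fun g : MvPolynomial (Fin 2) K →+* MvPolynomial (Fin 2) K => g f) this

theorem Phi1_injective : Function.Injective (Phi1 : MvPolynomial (Fin 2) K → K[X][X]) :=
  Function.LeftInverse.injective Psi1_Phi1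

theorem Phi2_injective : Function.Injective (Phi2 : MvPolynomial (Fin 2) K → K[X][X]) :=
  Function.LeftInverse.injective Psi2_Phi2

theorem coeff_Phi1 (f : MvPolynomial (Fin 2) K) (l i : ℕ) :
    ((Phi1 f).coeff l).coeff i = f.coeff (Finsupp.single 0 l + Finsupp.single 1 i) := by
  induction f using MvPolynomial.induction_on' with
  | add p q hp hq => rw [map_add, coeff_add, coeff_add, hp, hq, MvPolynomial.coeff_add]
  | monomial m a =>
    have h1 : (Phi1 (MvPolynomial.monomial m a) : K[X][X]) = C (C a * X ^ (m 1)) * X ^ (m 0) := by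
      rw [Phi1, MvPolynomial.aeval_monomial, Finsupp.prod_fintype _ _ (by simp)]
      simp [Fin.prod_univ_two]
      ring
    rw [h1, coeff_C_mul_X_pow, MvPolynomial.coeff_monomial]
    by_cases h0 : l = m 0
    · rw [if_pos h0, coeff_C_mul_X_pow]
      by_cases h2 : i = m 1
      · rw [if_pos h2, if_pos]
        ext j
        fin_cases j <;> simp [h0, h2]
      · rw [if_neg h2, if_neg]
        intro h
        apply h2
        rw [h]; simp
    · rw [if_neg h0, coeff_zero, if_neg]
      intro h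
      apply h0
      rw [h]; simp

theorem coeff_Phi2 (f : MvPolynomial (Fin 2) K) (l i : ℕ) :
    ((Phi2 f).coeff i).coeff l = f.coeff (Finsupp.single 0 l + Finsupp.single 1 i) := by
  induction f using MvPolynomial.induction_on' with
  | add p q hp hq => rw [map_add, coeff_add, coeff_add, hp, hq, MvPolynomial.coeff_add]
  | monomial m a =>
    have h1 : (Phi2 (MvPolynomial.monomial m a) : K[X][X]) = C (C a * X ^ (m 0)) * X ^ (m 1) := by
      rw [Phi2, MvPolynomial.aeval_monomial, Finsupp.prod_fintype _ _ (by simp)]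
      simp [Fin.prod_univ_two]
      ring
    rw [h1, coeff_C_mul_X_pow, MvPolynomial.coeff_monomial]
    by_cases h0 : i = m 1
    · rw [if_pos h0, coeff_C_mul_X_pow]
      by_cases h2 : l = m 0
      · rw [if_pos h2, if_pos]
        ext j
        fin_cases j <;> simp [h0, h2]
      · rw [if_neg h2, if_neg]
        intro h
        apply h2
        rw [h]; simp
    · rw [if_neg h0, coeff_zero, if_neg]
      intro h
      apply h0
      rw [h]; simp

theorem finite_box [Finite K] (a b : ℕ) :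
    {f : MvPolynomial (Fin 2) K | (Phi1 f).natDegree ≤ a ∧ (Phi2 f).natDegree ≤ b}.Finite := by
  let F : MvPolynomial (Fin 2) K → (Fin (a + 1) → Fin (b + 1) → K) := fun f l i =>
    f.coeff (Finsupp.single 0 (l : ℕ) + Finsupp.single 1 (i : ℕ))
  apply Set.Finite.of_finite_image (f := F) (Set.toFinite _)
  intro f hf g hg hfg
  apply Phi1_injective
  ext l i
  rw [coeff_Phi1, coeff_Phi1]
  by_cases hl : l < a + 1
  · by_cases hi : i < b + 1
    · exact congrFun (congrFun hfg ⟨l, hl⟩) ⟨i, hi⟩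
    · rw [← coeff_Phi2, ← coeff_Phi2, coeff_eq_zero_of_natDegree_lt (lt_of_le_of_lt hf.2 (by omega)),
        coeff_eq_zero_of_natDegree_lt (lt_of_le_of_lt hg.2 (by omega))]
  · rw [← coeff_Phi1, ← coeff_Phi1, coeff_eq_zero_of_natDegree_lt (lt_of_le_of_lt hf.1 (by omega)),
      coeff_eq_zero_of_natDegree_lt (lt_of_le_of_lt hg.1 (by omega))]

theorem sq_sub_aniso (a b : MvPolynomial (Fin 2) K)
    (h : a ^ 2 - MvPolynomial.X 0 * b ^ 2 = 0) : a = 0 ∧ b = 0 := by
  have h1 := congrArg Phi1 h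
  rw [map_sub, map_mul, map_pow, map_pow, Phi1_W, map_zero, sub_eq_zero] at h1
  by_cases hb : b = 0
  · subst hb
    simp at h
    exact ⟨h, rfl⟩
  · exfalso
    have hb' : Phi1 b ≠ 0 := fun h => hb (Phi1_injective (by rw [h, map_zero]))
    have h2 := congrArg natDegree h1
    rw [natDegree_pow, natDegree_mul X_ne_zero (pow_ne_zero 2 hb'), natDegree_pow,
      natDegree_X] at h2
    omega

theorem exists_nu [Finite K] (p : ℕ) (hp : p.Prime) : ∃ ν : K, ∀ t : K, t ^ p - t ≠ ν := by
  by_contra hcon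
  push Not at hcon
  have hsurj : Function.Surjective (fun t : K => t ^ p - t) := hcon
  have hinj := Finite.injective_iff_surjective.2 hsurj
  have := @hinj 0 1 (by simp [hp.ne_zero])
  exact zero_ne_one this

end maps

section reindex

theorem reindex {R : Type*} [CommRing R] {ι : Type*} [Fintype ι] {n : ℕ}
    (P : MvPolynomial (Option (Fin n) ⊕ ι) R) :
    ∃ (k : ℕ) (P' : MvPolynomial (Option (Fin n) ⊕ Fin k) R), ∀ v : Option (Fin n) → R,
      (∃ y : Fin k → R, MvPolynomial.eval (Sum.elim v y) P' = 0) ↔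
      (∃ y : ι → R, MvPolynomial.eval (Sum.elim v y) P = 0) := by
  classical
  let e := Fintype.equivFin ι
  refine ⟨Fintype.card ι, MvPolynomial.rename (Sum.map id e) P, fun v => ?_⟩
  have key : ∀ y : Fin (Fintype.card ι) → R,
      MvPolynomial.eval (Sum.elim v y) (MvPolynomial.rename (Sum.map id e) P) =
      MvPolynomial.eval (Sum.elim v (y ∘ e)) P := by
    intro y
    rw [MvPolynomial.eval_rename]
    congr 2
    ext x
    rcases x with x | x <;> rfl
  constructor
  · rintro ⟨y, hy⟩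
    exact ⟨y ∘ e, by rw [← key]; exact hy⟩
  · rintro ⟨y, hy⟩
    refine ⟨y ∘ e.symm, ?_⟩
    rw [key]
    have : (y ∘ e.symm) ∘ e = y := by ext; simp
    rw [this]; exact hy

end reindex

section main

variable {K : Type*} [Field K] [Finite K] (p : ℕ) [hp : Fact p.Prime] [CharP K p]

/-- The system of four equations, for elements of `K[W,Z]`. -/
def Sys (ν : K) (f B c h1 x y s : MvPolynomial (Fin 2) K)
    (Y : ℕ → ℕ → MvPolynomial (Fin 2) K) : Prop :=
  x ^ 2 + MvPolynomial.X 0 * x * y + y ^ 2 = 1 ∧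
  2 * x + MvPolynomial.X 0 * y = 1 + (MvPolynomial.X 0 - 1) * h1 ∧
  (1 + (MvPolynomial.X 0 - 1) * h1) - B = (MvPolynomial.X 0 - MvPolynomial.X 1) * s ∧
  (Y 0 0 + MvPolynomial.C ν *
      (1 + MvPolynomial.X 1 * (1 + (MvPolynomial.X 0 - 1) * h1) + B ^ p * f) +
      c * (1 + (1 + (MvPolynomial.X 0 - 1) * h1))) *
      (1 + MvPolynomial.X 1 * (1 + (MvPolynomial.X 0 - 1) * h1) + B ^ p * f) ^ (p - 1) =
    ∑ j ∈ range p, ∑ i ∈ range p,
      MvPolynomial.X 0 ^ j * (MvPolynomial.X 1 ^ i * (Y i j) ^ p)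

theorem sys_exists (ν : K) (f : MvPolynomial (Fin 2) K) :
    ∃ (B c : K[X]) (h1 x y s : MvPolynomial (Fin 2) K) (Y : ℕ → ℕ → MvPolynomial (Fin 2) K),
      Sys p ν f (aeval (MvPolynomial.X 1) B) (aeval (MvPolynomial.X 1) c) h1 x y s Y := by
  set m := (Phi1 f).natDegree with hm
  have h0 : (Phi1 f).natDegree ≤ p ^ m := by
    rw [← hm]; exact (Nat.lt_pow_self hp.out.one_lt).le
  obtain ⟨c, Y, hY⟩ := exists_rel p m (Phi1 f) ν h0
  obtain ⟨x, y, hxy, htr⟩ := pell_exists p (MvPolynomial.X 0 : MvPolynomial (Fin 2) K) m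
  have hgeom : 1 + (MvPolynomial.X 0 - 1) * (∑ i ∈ range (p ^ m), MvPolynomial.X 0 ^ i) =
      (MvPolynomial.X 0 : MvPolynomial (Fin 2) K) ^ (p ^ m) := by
    rw [mul_geom_sum]; ring
  obtain ⟨s, hs⟩ := sub_dvd_pow_sub_pow (MvPolynomial.X 0 : MvPolynomial (Fin 2) K)
    (MvPolynomial.X 1) (p ^ m)
  refine ⟨X ^ (p ^ m), c, ∑ i ∈ range (p ^ m), MvPolynomial.X 0 ^ i, x, y, s,
    fun i j => Psi1 (Y i j), hxy, ?_, ?_, ?_⟩
  · rw [hgeom, htr]
  · rw [hgeom, map_pow, aeval_X, hs]
  · rw [hgeom, map_pow, aeval_X]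
    have h2 := congrArg Psi1 hY
    simp only [map_mul, map_add, map_pow, Psi1_C, Psi1_X, map_sum, aeval_C, map_one] at h2
    have h3 : Psi1 (fmod p m (Phi1 f)) = 1 + MvPolynomial.X 1 * MvPolynomial.X 0 ^ (p ^ m) +
        (MvPolynomial.X 1 ^ (p ^ m)) ^ p * f := by
      unfold fmod
      simp only [map_mul, map_add, map_pow, Psi1_C, Psi1_X, map_one, aeval_X, Psi1_Phi1]
      rw [← pow_mul, ← pow_succ]
    rw [h3] at h2
    simp only [aeval_X] at h2
    simp only [Finset.mul_sum] at h2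
    exact h2

theorem sys_h (ν : K) (f : MvPolynomial (Fin 2) K) (B : K[X]) (c h1 x y s : MvPolynomial (Fin 2) K)
    (Y : ℕ → ℕ → MvPolynomial (Fin 2) K)
    (h : Sys p ν f (aeval (MvPolynomial.X 1) B) c h1 x y s Y) :
    1 + (MvPolynomial.X 0 - 1) * h1 = aeval (MvPolynomial.X 0) B := by
  obtain ⟨e1, e2, e3, -⟩ := h
  set hh := 1 + (MvPolynomial.X 0 - 1) * h1 with hhh
  have e1' := congrArg Phi2 e1
  simp only [map_add, map_mul, map_pow, Phi2_W, map_one] at e1'
  obtain ⟨dx, dy⟩ := pell_const _ _ e1'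
  have e2' := congrArg Phi2 e2
  simp only [map_add, map_mul, Phi2_W, map_ofNat] at e2'
  have hd : (Phi2 hh).natDegree = 0 := by
    rw [← e2']
    apply Nat.eq_zero_of_le_zero
    refine (natDegree_add_le _ _).trans (max_le ?_ ?_)
    · refine natDegree_mul_le.trans ?_
      rw [dx]
      simp
    · refine (natDegree_C_mul_le _ _).trans dy.le
  rw [natDegree_eq_zero] at hd
  obtain ⟨ht, hht⟩ := hd
  have e3' := congrArg Phi2 e3
  rw [map_sub, map_mul, map_sub, Phi2_W, Phi2_Z, ← hht] at e3'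
  have e4 : Phi2 (aeval (MvPolynomial.X 1 : MvPolynomial (Fin 2) K) B) = B.map C := by
    have h5 : ((Phi2 : MvPolynomial (Fin 2) K →ₐ[K] K[X][X]).comp
        (aeval (MvPolynomial.X 1 : MvPolynomial (Fin 2) K))) = mapAlgHom (CAlgHom) := by
      apply Polynomial.algHom_ext
      simp
    exact congrArg (fun g : K[X] →ₐ[K] K[X][X] => g B) h5
  have e5 := congrArg (eval (X : K[X])) e3'
  rw [eval_sub, eval_mul, eval_sub, eval_C, eval_C, eval_X, sub_self, zero_mul, e4, eval_map,
    sub_eq_zero] at e5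
  have e6 : ht = B := by
    rw [e5, ← comp, comp_X]
  have e7 := congrArg Psi2 hht
  rw [Psi2_Phi2, Psi2_C, e6] at e7
  exact e7.symm

theorem sys_finite (ν : K) (hν : ∀ t : K, t ^ p - t ≠ ν) (B c : K[X]) :
    {f : MvPolynomial (Fin 2) K | ∃ (h1 x y s : MvPolynomial (Fin 2) K)
      (Y : ℕ → ℕ → MvPolynomial (Fin 2) K),
      Sys p ν f (aeval (MvPolynomial.X 1) B) (aeval (MvPolynomial.X 1) c) h1 x y s Y}.Finite := by
  set hB : MvPolynomial (Fin 2) K := aeval (MvPolynomial.X 0) B with hhB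
  set cZ : MvPolynomial (Fin 2) K := aeval (MvPolynomial.X 1) c with hcZ
  set BZ : MvPolynomial (Fin 2) K := aeval (MvPolynomial.X 1) B with hBZ
  set xx := cZ * (1 + hB) with hxx
  by_cases hB0 : B = 0
  · convert Set.finite_empty
    ext f
    simp only [Set.mem_ofPred_eq, Set.mem_empty_iff_false, iff_false]
    rintro ⟨h1, x, y, s, Y, hS⟩
    have h2 := sys_h p ν f B cZ h1 x y s Y hS
    rw [hB0, map_zero] at h2
    have h3 := congrArg (MvPolynomial.eval (fun _ : Fin 2 => (1 : K))) h2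
    simp at h3
  · have hBZ0 : BZ ^ p ≠ 0 := by
      apply pow_ne_zero
      intro h
      apply hB0
      have h2 : Psi1 (C B : K[X][X]) = 0 := by rw [Psi1_C]; exact h
      have h3 : Phi1 BZ = C B := by
        have h5 : ((Phi1 : MvPolynomial (Fin 2) K →ₐ[K] K[X][X]).comp
            (aeval (MvPolynomial.X 1 : MvPolynomial (Fin 2) K))) = CAlgHom := by
          apply Polynomial.algHom_ext
          simp
        exact congrArg (fun g : K[X] →ₐ[K] K[X][X] => g B) h5
      rw [h, map_zero] at h3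
      exact (C_eq_zero.1 h3.symm)
    have hinj : Function.Injective (fun f : MvPolynomial (Fin 2) K =>
        1 + MvPolynomial.X 1 * hB + BZ ^ p * f) := by
      intro f g hfg
      have h1 : BZ ^ p * f = BZ ^ p * g := add_left_cancel hfg
      exact mul_left_cancel₀ hBZ0 h1
    have hfin := finite_box (K := K) (Phi1 xx).natDegree (Phi2 xx).natDegree
    refine (hfin.preimage (hinj.injOn)).subset ?_
    rintro f ⟨h1, x, y, s, Y, hS⟩
    have h2 := sys_h p ν f B cZ h1 x y s Y hS
    obtain ⟨-, -, -, e4⟩ := hS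
    rw [h2, ← hhB] at e4
    set F := 1 + MvPolynomial.X 1 * hB + BZ ^ p * f with hF
    show (Phi1 F).natDegree ≤ _ ∧ (Phi2 F).natDegree ≤ _
    by_cases hF0 : F = 0
    · rw [hF0]; simp
    have hF1 : Phi1 F ≠ 0 := fun h => hF0 (Phi1_injective (by rw [h, map_zero]))
    have hF2 : Phi2 F ≠ 0 := fun h => hF0 (Phi2_injective (by rw [h, map_zero]))
    rw [← hxx] at e4
    constructor
    · have e5 := congrArg Phi1 e4
      simp only [map_add, map_mul, map_pow, map_sum, Phi1_W, Phi1_Z, Phi1_C] at e5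
      apply natDegree_le_natDegree
      apply outer_step p ν hν (Phi1 F) (Phi1 xx) (fun i j => Phi1 (Y i j)) _ hF1
      rw [e5]
      simp only [Finset.mul_sum]
    · have e5 := congrArg Phi2 e4
      simp only [map_add, map_mul, map_pow, map_sum, Phi2_W, Phi2_Z, Phi2_C] at e5
      apply natDegree_le_natDegree
      apply outer_step p ν hν (Phi2 F) (Phi2 xx) (fun j i => Phi2 (Y i j)) _ hF2
      rw [e5, Finset.sum_comm]
      simp only [Finset.mul_sum]
      refine Finset.sum_congr rfl fun i _ => Finset.sum_congr rfl fun j _ => ?_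
      ring

end main

end Pool.Agent.DLink
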