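import Pool.Agent.Lib.MP_064548_lc.Main

set_option autoImplicit false

/-!
One parameter version of the link: the two parameters `B`, `c` are coded by `B ^ p + Z * c ^ p`.
-/

namespace Pool.Agent.DLink.One

open Pool.Agent.DLink


variable {K : Type} [Field K]

/-- If `a ^ p + Z * b ^ p` is in `K[Z]` then so are `a` and `b`. -/
theorem split_aux (p : ℕ) [hp : Fact p.Prime] [CharP K p] (a b : (MvPolynomial (Fin 2) K)) (g : Polynomial K)
    (h : Polynomial.aeval (MvPolynomial.X 1 : MvPolynomial (Fin 2) K) g = a ^ p + MvPolynomial.X 1 * b ^ p) :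
    ∃ B c : Polynomial K, a = Polynomial.aeval (MvPolynomial.X 1 : (MvPolynomial (Fin 2) K)) B ∧
      b = Polynomial.aeval (MvPolynomial.X 1 : (MvPolynomial (Fin 2) K)) c ∧ g = B ^ p + Polynomial.X * c ^ p := by
  have hp0 : p ≠ 0 := hp.out.ne_zero
  have hcomp : ∀ q : Polynomial K, Phi1 (Polynomial.aeval (MvPolynomial.X 1 : (MvPolynomial (Fin 2) K)) q) =
      Polynomial.C q := by
    intro q
    have h5 : ((Phi1 : (MvPolynomial (Fin 2) K) →ₐ[K] Polynomial (Polynomial K)).comp
        (Polynomial.aeval (MvPolynomial.X 1 : (MvPolynomial (Fin 2) K)))) = Polynomial.CAlgHom := by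
      apply Polynomial.algHom_ext
      simp
    exact congrArg (fun r : Polynomial K →ₐ[K] Polynomial (Polynomial K) => r q) h5
  have h1 := congrArg Phi1 h
  simp only [map_add, map_mul, map_pow, Phi1_Z] at h1
  have h1' : Polynomial.C g = (Phi1 a) ^ p + Polynomial.C Polynomial.X * (Phi1 b) ^ p := by
    rw [← h1]; exact (hcomp g).symm
  -- coefficients of positive index vanish
  have hcoef : ∀ n : ℕ, (Polynomial.C g : Polynomial (Polynomial K)).coeff (p * n) =
      ((Phi1 a).coeff n) ^ p + Polynomial.X * ((Phi1 b).coeff n) ^ p := by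
    intro n
    rw [h1', Polynomial.coeff_add, Polynomial.coeff_C_mul, coeff_pow_char_mul, coeff_pow_char_mul]
  have hz : ∀ n : ℕ, n ≠ 0 → (Phi1 a).coeff n = 0 ∧ (Phi1 b).coeff n = 0 := by
    intro n hn
    have h2 := hcoef n
    rw [Polynomial.coeff_C_of_ne_zero (Nat.mul_ne_zero hp0 hn)] at h2
    have h3 := sum_X_pow_eq_zero (K := K) p
      (fun i => if i = 0 then (Phi1 a).coeff n else if i = 1 then (Phi1 b).coeff n else 0) (by
        have h01 : ({0, 1} : Finset ℕ) ⊆ Finset.range p := by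
          intro i hi
          simp only [Finset.mem_insert, Finset.mem_singleton] at hi
          have := hp.out.two_le
          rw [Finset.mem_range]
          omega
        rw [← Finset.sum_subset h01]
        · rw [Finset.sum_pair (by decide)]
          simp only [pow_zero, one_mul, if_true, pow_one, one_ne_zero, if_false]
          exact h2.symm
        · intro i _ hi
          simp only [Finset.mem_insert, Finset.mem_singleton, not_or] at hi
          rw [if_neg hi.1, if_neg hi.2, zero_pow hp0, mul_zero])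
    have h4 := h3 0 hp.out.pos
    have h5 := h3 1 hp.out.one_lt
    simp only [if_true] at h4
    simp only [one_ne_zero, if_false, if_true] at h5
    exact ⟨h4, h5⟩
  have ha : Phi1 a = Polynomial.C ((Phi1 a).coeff 0) := by
    ext1 n
    by_cases hn : n = 0
    · subst hn; simp
    · rw [(hz n hn).1, Polynomial.coeff_C_of_ne_zero hn]
  have hb : Phi1 b = Polynomial.C ((Phi1 b).coeff 0) := by
    ext1 n
    by_cases hn : n = 0
    · subst hn; simp
    · rw [(hz n hn).2, Polynomial.coeff_C_of_ne_zero hn]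
  refine ⟨(Phi1 a).coeff 0, (Phi1 b).coeff 0, ?_, ?_, ?_⟩
  · apply Phi1_injective
    rw [hcomp]; exact ha
  · apply Phi1_injective
    rw [hcomp]; exact hb
  · have h2 := hcoef 0
    rw [mul_zero, Polynomial.coeff_C_zero] at h2
    exact h2

/-- The degree bounds forced by the system of equations. -/
theorem sys_degree [Finite K] (p : ℕ) [hp : Fact p.Prime] [CharP K p] (ν : K) (hν : ∀ t : K, t ^ p - t ≠ ν)
    (B c : Polynomial K) (f h1 x y s : (MvPolynomial (Fin 2) K)) (Y : ℕ → ℕ → (MvPolynomial (Fin 2) K))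
    (hS : Sys p ν f (Polynomial.aeval (MvPolynomial.X 1) B) (Polynomial.aeval (MvPolynomial.X 1) c) h1 x y s Y) :
    (Phi1 f).natDegree ≤ B.natDegree ∧ (Phi2 f).natDegree ≤ c.natDegree + 1 := by
  have hp0 : p ≠ 0 := hp.out.ne_zero
  have hcomp1Z : ∀ q : Polynomial K, Phi1 (Polynomial.aeval (MvPolynomial.X 1 : (MvPolynomial (Fin 2) K)) q) =
      Polynomial.C q := by
    intro q
    have h5 : ((Phi1 : (MvPolynomial (Fin 2) K) →ₐ[K] Polynomial (Polynomial K)).comp
        (Polynomial.aeval (MvPolynomial.X 1 : (MvPolynomial (Fin 2) K)))) = Polynomial.CAlgHom := by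
      apply Polynomial.algHom_ext
      simp
    exact congrArg (fun r : Polynomial K →ₐ[K] Polynomial (Polynomial K) => r q) h5
  have hcomp2W : ∀ q : Polynomial K, Phi2 (Polynomial.aeval (MvPolynomial.X 0 : (MvPolynomial (Fin 2) K)) q) =
      Polynomial.C q := by
    intro q
    have h5 : ((Phi2 : (MvPolynomial (Fin 2) K) →ₐ[K] Polynomial (Polynomial K)).comp
        (Polynomial.aeval (MvPolynomial.X 0 : (MvPolynomial (Fin 2) K)))) = Polynomial.CAlgHom := by
      apply Polynomial.algHom_ext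
      simp
    exact congrArg (fun r : Polynomial K →ₐ[K] Polynomial (Polynomial K) => r q) h5
  have hcomp1W : ∀ q : Polynomial K, Phi1 (Polynomial.aeval (MvPolynomial.X 0 : (MvPolynomial (Fin 2) K)) q) =
      q.map Polynomial.C := by
    intro q
    have h5 : ((Phi1 : (MvPolynomial (Fin 2) K) →ₐ[K] Polynomial (Polynomial K)).comp
        (Polynomial.aeval (MvPolynomial.X 0 : (MvPolynomial (Fin 2) K)))) = Polynomial.mapAlgHom Polynomial.CAlgHom := by
      apply Polynomial.algHom_ext
      simp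
    exact congrArg (fun r : Polynomial K →ₐ[K] Polynomial (Polynomial K) => r q) h5
  have hcomp2Z : ∀ q : Polynomial K, Phi2 (Polynomial.aeval (MvPolynomial.X 1 : (MvPolynomial (Fin 2) K)) q) =
      q.map Polynomial.C := by
    intro q
    have h5 : ((Phi2 : (MvPolynomial (Fin 2) K) →ₐ[K] Polynomial (Polynomial K)).comp
        (Polynomial.aeval (MvPolynomial.X 1 : (MvPolynomial (Fin 2) K)))) = Polynomial.mapAlgHom Polynomial.CAlgHom := by
      apply Polynomial.algHom_ext
      simp
    exact congrArg (fun r : Polynomial K →ₐ[K] Polynomial (Polynomial K) => r q) h5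
  have h2 := sys_h p ν f B (Polynomial.aeval (MvPolynomial.X 1) c) h1 x y s Y hS
  obtain ⟨-, -, -, e4⟩ := hS
  rw [h2] at e4
  have hB0 : B ≠ 0 := by
    rintro rfl
    rw [map_zero] at h2
    have h3 := congrArg (MvPolynomial.eval (fun _ : Fin 2 => (1 : K))) h2
    simp at h3
  set hB : (MvPolynomial (Fin 2) K) := Polynomial.aeval (MvPolynomial.X 0) B with hhB
  set cZ : (MvPolynomial (Fin 2) K) := Polynomial.aeval (MvPolynomial.X 1) c with hcZ
  set BZ : (MvPolynomial (Fin 2) K) := Polynomial.aeval (MvPolynomial.X 1) B with hBZ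
  set F : (MvPolynomial (Fin 2) K) := 1 + MvPolynomial.X 1 * hB + BZ ^ p * f with hF
  have hmapB : (B.map (Polynomial.C : K →+* Polynomial K)).natDegree = B.natDegree :=
    Polynomial.natDegree_map_eq_of_injective Polynomial.C_injective B
  have hmapc : (c.map (Polynomial.C : K →+* Polynomial K)).natDegree = c.natDegree :=
    Polynomial.natDegree_map_eq_of_injective Polynomial.C_injective c
  -- degrees of the right hand side
  have hx1 : (Phi1 (cZ * (1 + hB))).natDegree ≤ B.natDegree := by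
    rw [map_mul, hcZ, hcomp1Z, map_add, map_one, hhB, hcomp1W]
    refine (Polynomial.natDegree_C_mul_le _ _).trans ?_
    refine (Polynomial.natDegree_add_le _ _).trans (max_le (by simp) hmapB.le)
  have hx2 : (Phi2 (cZ * (1 + hB))).natDegree ≤ c.natDegree := by
    rw [map_mul, hcZ, hcomp2Z, map_add, map_one, hhB, hcomp2W]
    have : (1 + Polynomial.C B : Polynomial (Polynomial K)) = Polynomial.C (1 + B) := by simp
    rw [this, mul_comm]
    exact (Polynomial.natDegree_C_mul_le _ _).trans hmapc.le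
  have hF12 : (Phi1 F).natDegree ≤ B.natDegree ∧ (Phi2 F).natDegree ≤ c.natDegree := by
    by_cases hF0 : F = 0
    · rw [hF0]; simp
    have hF1 : Phi1 F ≠ 0 := fun h => hF0 (Phi1_injective (by rw [h, map_zero]))
    have hF2 : Phi2 F ≠ 0 := fun h => hF0 (Phi2_injective (by rw [h, map_zero]))
    constructor
    · refine le_trans ?_ hx1
      have e5 := congrArg Phi1 e4
      simp only [map_add, map_mul, map_pow, map_sum, Phi1_W, Phi1_Z, Phi1_C] at e5
      apply Polynomial.natDegree_le_natDegree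
      apply outer_step p ν hν (Phi1 F) (Phi1 (cZ * (1 + hB))) (fun i j => Phi1 (Y i j)) _ hF1
      simp only [map_mul, map_add] at e5 ⊢
      rw [e5]
      simp only [Finset.mul_sum]
    · refine le_trans ?_ hx2
      have e5 := congrArg Phi2 e4
      simp only [map_add, map_mul, map_pow, map_sum, Phi2_W, Phi2_Z, Phi2_C] at e5
      apply Polynomial.natDegree_le_natDegree
      apply outer_step p ν hν (Phi2 F) (Phi2 (cZ * (1 + hB))) (fun j i => Phi2 (Y i j)) _ hF2
      simp only [map_mul, map_add] at e5 ⊢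
      rw [e5, Finset.sum_comm]
      simp only [Finset.mul_sum]
      refine Finset.sum_congr rfl fun i _ => Finset.sum_congr rfl fun j _ => ?_
      ring
  have hFf : BZ ^ p * f = F - 1 - MvPolynomial.X 1 * hB := by rw [hF]; ring
  constructor
  · -- degree in W
    by_cases hf0 : f = 0
    · rw [hf0]; simp
    have e6 := congrArg (fun q => (Phi1 q).natDegree) hFf
    simp only [map_mul, map_pow, map_sub, map_one, Phi1_Z] at e6
    rw [hBZ, hcomp1Z, ← Polynomial.C_pow,
      Polynomial.natDegree_C_mul (pow_ne_zero p hB0)] at e6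
    rw [e6, hhB, hcomp1W]
    refine (Polynomial.natDegree_sub_le _ _).trans (max_le ?_ ?_)
    · refine (Polynomial.natDegree_sub_le _ _).trans (max_le hF12.1 (by simp))
    · exact (Polynomial.natDegree_C_mul_le _ _).trans hmapB.le
  · by_cases hf0 : f = 0
    · rw [hf0]; simp
    have e6 := congrArg (fun q => (Phi2 q).natDegree) hFf
    simp only [map_mul, map_pow, map_sub, map_one, Phi2_Z] at e6
    have hBm : (B.map (Polynomial.C : K →+* Polynomial K)) ^ p ≠ 0 := by
      apply pow_ne_zero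
      rwa [Polynomial.map_ne_zero_iff Polynomial.C_injective]
    have hf2 : Phi2 f ≠ 0 := fun h => hf0 (Phi2_injective (by rw [h, map_zero]))
    rw [hBZ, hcomp2Z, Polynomial.natDegree_mul hBm hf2, hhB, hcomp2W] at e6
    have h7 : (Phi2 F - 1 - Polynomial.X * Polynomial.C B).natDegree ≤ c.natDegree + 1 := by
      refine (Polynomial.natDegree_sub_le _ _).trans (max_le ?_ ?_)
      · refine (Polynomial.natDegree_sub_le _ _).trans (max_le (hF12.2.trans (Nat.le_succ _)) (by simp))
      · rw [mul_comm]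
        refine (Polynomial.natDegree_C_mul_le _ _).trans ?_
        simp
    omega

/-- The polynomial equation of the link. -/
theorem link1 [Finite K] (p : ℕ) [hp : Fact p.Prime] [CharP K p] (ν : K) :
    ∃ P : MvPolynomial (Fin 2 ⊕ (Fin 6 ⊕ (Fin p × Fin p))) (MvPolynomial (Fin 2) K),
      ∀ v : Fin 2 → (MvPolynomial (Fin 2) K),
        (∃ y : Fin 6 ⊕ (Fin p × Fin p) → (MvPolynomial (Fin 2) K), MvPolynomial.eval (Sum.elim v y) P = 0) ↔
        (∃ (a b h1 x y s : (MvPolynomial (Fin 2) K)) (Y : ℕ → ℕ → (MvPolynomial (Fin 2) K)),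
          Sys p ν (v 0) a b h1 x y s Y ∧ v 1 = a ^ p + MvPolynomial.X 1 * b ^ p) := by
  classical
  have hp0 : 0 < p := hp.out.pos
  let R := (MvPolynomial (Fin 2) K)
  let W : MvPolynomial (Fin 2 ⊕ (Fin 6 ⊕ (Fin p × Fin p))) R := MvPolynomial.C (MvPolynomial.X 0)
  let Z : MvPolynomial (Fin 2 ⊕ (Fin 6 ⊕ (Fin p × Fin p))) R := MvPolynomial.C (MvPolynomial.X 1)
  let N : MvPolynomial (Fin 2 ⊕ (Fin 6 ⊕ (Fin p × Fin p))) R := MvPolynomial.C (MvPolynomial.C ν)
  let f : MvPolynomial (Fin 2 ⊕ (Fin 6 ⊕ (Fin p × Fin p))) R := MvPolynomial.X (Sum.inl 0)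
  let g : MvPolynomial (Fin 2 ⊕ (Fin 6 ⊕ (Fin p × Fin p))) R := MvPolynomial.X (Sum.inl 1)
  let u : Fin 6 → MvPolynomial (Fin 2 ⊕ (Fin 6 ⊕ (Fin p × Fin p))) R := fun i =>
    MvPolynomial.X (Sum.inr (Sum.inl i))
  let V : Fin p → Fin p → MvPolynomial (Fin 2 ⊕ (Fin 6 ⊕ (Fin p × Fin p))) R :=
    fun i j => MvPolynomial.X (Sum.inr (Sum.inr (i, j)))
  let E1 := (u 1) ^ 2 + W * (u 1) * (u 2) + (u 2) ^ 2 - 1
  let E2 := 2 * (u 1) + W * (u 2) - (1 + (W - 1) * (u 0))
  let E3 := (1 + (W - 1) * (u 0)) - (u 4) - (W - Z) * (u 3)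
  let F := 1 + Z * (1 + (W - 1) * (u 0)) + (u 4) ^ p * f
  let E4 := (V ⟨0, hp0⟩ ⟨0, hp0⟩ + N * F + (u 5) * (1 + (1 + (W - 1) * (u 0)))) * F ^ (p - 1) -
    ∑ j : Fin p, ∑ i : Fin p, W ^ (j : ℕ) * (Z ^ (i : ℕ) * (V i j) ^ p)
  let E5 := g - ((u 4) ^ p + Z * (u 5) ^ p)
  refine ⟨((E1 ^ 2 - W * E2 ^ 2) ^ 2 - W * (E3 ^ 2 - W * E4 ^ 2) ^ 2) ^ 2 - W * E5 ^ 2, fun v => ?_⟩
  constructor
  · rintro ⟨y, hy⟩
    rw [map_sub, map_mul, map_pow, map_pow] at hy
    simp only [W, MvPolynomial.eval_C] at hy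
    obtain ⟨hy, h5⟩ := sq_sub_aniso _ _ hy
    rw [map_sub, map_mul, map_pow, map_pow] at hy
    simp only [MvPolynomial.eval_C] at hy
    obtain ⟨hA, hC⟩ := sq_sub_aniso _ _ hy
    rw [map_sub, map_mul, map_pow, map_pow] at hA hC
    simp only [MvPolynomial.eval_C] at hA hC
    obtain ⟨h1, h2⟩ := sq_sub_aniso _ _ hA
    obtain ⟨h3, h4⟩ := sq_sub_aniso _ _ hC
    refine ⟨y (Sum.inl 4), y (Sum.inl 5), y (Sum.inl 0), y (Sum.inl 1), y (Sum.inl 2), y (Sum.inl 3),
      fun i j => if h : i < p ∧ j < p then y (Sum.inr (⟨i, h.1⟩, ⟨j, h.2⟩)) else 0, ⟨?_, ?_, ?_, ?_⟩, ?_⟩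
    · simp only [E1, W, u, map_sub, map_add, map_mul, map_pow, map_one, MvPolynomial.eval_C,
        MvPolynomial.eval_X, Sum.elim_inr] at h1
      exact sub_eq_zero.1 h1
    · simp only [E2, W, u, map_sub, map_add, map_mul, map_one, map_ofNat, MvPolynomial.eval_C,
        MvPolynomial.eval_X, Sum.elim_inr] at h2
      exact sub_eq_zero.1 h2
    · simp only [E3, W, Z, u, map_sub, map_add, map_mul, map_one, MvPolynomial.eval_C,
        MvPolynomial.eval_X, Sum.elim_inr] at h3
      exact sub_eq_zero.1 h3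
    · simp only [E4, F, W, Z, N, V, f, u, map_sub, map_add, map_mul, map_one, map_pow, map_sum,
        MvPolynomial.eval_C, MvPolynomial.eval_X, Sum.elim_inr, Sum.elim_inl] at h4
      rw [sub_eq_zero] at h4
      beta_reduce
      rw [dif_pos (show 0 < p ∧ 0 < p from ⟨hp0, hp0⟩), h4, Finset.sum_range]
      refine Finset.sum_congr rfl fun j _ => ?_
      rw [Finset.sum_range]
      refine Finset.sum_congr rfl fun i _ => ?_
      rw [dif_pos (show (i : ℕ) < p ∧ (j : ℕ) < p from ⟨i.2, j.2⟩)]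
    · simp only [E5, g, Z, u, map_sub, map_add, map_mul, map_pow, MvPolynomial.eval_C,
        MvPolynomial.eval_X, Sum.elim_inr, Sum.elim_inl] at h5
      exact sub_eq_zero.1 h5
  · rintro ⟨a, b, h1, x, y, s, Y, ⟨e1, e2, e3, e4⟩, e5⟩
    refine ⟨Sum.elim ![h1, x, y, s, a, b] (fun ij => Y ij.1 ij.2), ?_⟩
    have k1 : MvPolynomial.eval (Sum.elim v (Sum.elim ![h1, x, y, s, a, b] (fun ij => Y ij.1 ij.2))) E1
        = 0 := by
      simp only [E1, W, u, map_sub, map_add, map_mul, map_pow, map_one, MvPolynomial.eval_C,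
        MvPolynomial.eval_X, Sum.elim_inr, Sum.elim_inl]
      exact sub_eq_zero.2 e1
    have k2 : MvPolynomial.eval (Sum.elim v (Sum.elim ![h1, x, y, s, a, b] (fun ij => Y ij.1 ij.2))) E2
        = 0 := by
      simp only [E2, W, u, map_sub, map_add, map_mul, map_one, map_ofNat, MvPolynomial.eval_C,
        MvPolynomial.eval_X, Sum.elim_inr, Sum.elim_inl]
      exact sub_eq_zero.2 e2
    have k3 : MvPolynomial.eval (Sum.elim v (Sum.elim ![h1, x, y, s, a, b] (fun ij => Y ij.1 ij.2))) E3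
        = 0 := by
      simp only [E3, W, Z, u, map_sub, map_add, map_mul, map_one, MvPolynomial.eval_C,
        MvPolynomial.eval_X, Sum.elim_inr, Sum.elim_inl]
      exact sub_eq_zero.2 e3
    have k4 : MvPolynomial.eval (Sum.elim v (Sum.elim ![h1, x, y, s, a, b] (fun ij => Y ij.1 ij.2))) E4
        = 0 := by
      simp only [E4, F, W, Z, N, V, f, u, map_sub, map_add, map_mul, map_one, map_pow, map_sum,
        MvPolynomial.eval_C, MvPolynomial.eval_X, Sum.elim_inr, Sum.elim_inl]
      rw [Finset.sum_range] at e4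
      simp only [Finset.sum_range] at e4
      exact sub_eq_zero.2 e4
    have k5 : MvPolynomial.eval (Sum.elim v (Sum.elim ![h1, x, y, s, a, b] (fun ij => Y ij.1 ij.2))) E5
        = 0 := by
      simp only [E5, g, Z, u, map_sub, map_add, map_mul, map_pow, MvPolynomial.eval_C,
        MvPolynomial.eval_X, Sum.elim_inr, Sum.elim_inl]
      exact sub_eq_zero.2 e5
    simp only [map_sub, map_mul, map_pow, k1, k2, k3, k4, k5]
    ring

theorem reindex1 {R : Type} [CommRing R] {ι : Type} [Fintype ι] {m : ℕ}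
    (P : MvPolynomial (Fin m ⊕ ι) R) :
    ∃ (k : ℕ) (P' : MvPolynomial (Fin m ⊕ Fin k) R), ∀ v : Fin m → R,
      (∃ y : Fin k → R, MvPolynomial.eval (Sum.elim v y) P' = 0) ↔
      (∃ y : ι → R, MvPolynomial.eval (Sum.elim v y) P = 0) := by
  classical
  let e := Fintype.equivFin ι
  refine ⟨Fintype.card ι, MvPolynomial.rename (Sum.map id e) P, fun v => ?_⟩
  have key : ∀ y : Fin (Fintype.card ι) → R,
      MvPolynomial.eval (Sum.elim v y) (MvPolynomial.rename (Sum.map id e) P) =
      MvPolynomial.eval (Sum.elim v (y ∘ e)) P := by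
    intro y
    rw [MvPolynomial.eval_rename]
    congr 2
    ext x
    rcases x with x | x <;> rfl
  constructor
  · rintro ⟨y, hy⟩
    exact ⟨y ∘ e, by rw [← key]; exact hy⟩
  · rintro ⟨y, hy⟩
    refine ⟨y ∘ e.symm, ?_⟩
    rw [key]
    have : (y ∘ e.symm) ∘ e = y := by ext; simp
    rw [this]; exact hy

theorem natDegree_split (p : ℕ) [hp : Fact p.Prime] [CharP K p] (B c : Polynomial K) :
    B.natDegree ≤ (B ^ p + Polynomial.X * c ^ p).natDegree ∧
      c.natDegree ≤ (B ^ p + Polynomial.X * c ^ p).natDegree := by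
  have hp1 := hp.out.one_lt
  have hodd : ∀ n : ℕ, (B ^ p + Polynomial.X * c ^ p).coeff (p * n) = (B.coeff n) ^ p := by
    intro n
    rw [Polynomial.coeff_add, coeff_pow_char_mul]
    have : (Polynomial.X * c ^ p).coeff (p * n) = 0 := by
      rcases Nat.eq_zero_or_pos n with hn | hn
      · subst hn; simp
      · obtain ⟨t, ht⟩ : ∃ t, p * n = t + 1 := ⟨p * n - 1, by
          have : 0 < p * n := Nat.mul_pos hp.out.pos hn
          omega⟩
        rw [ht, Polynomial.coeff_X_mul, coeff_pow_char, if_neg]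
        intro hd
        have h1 : p ∣ t + 1 := ht ▸ dvd_mul_right p n
        have h2 : p ∣ 1 := (Nat.dvd_add_right hd).1 h1
        have h3 := Nat.le_of_dvd one_pos h2
        omega
    rw [this, add_zero]
  have heven : ∀ n : ℕ, (B ^ p + Polynomial.X * c ^ p).coeff (p * n + 1) = (c.coeff n) ^ p := by
    intro n
    rw [Polynomial.coeff_add, Polynomial.coeff_X_mul, coeff_pow_char_mul, coeff_pow_char, if_neg, zero_add]
    intro hd
    have h2 : p ∣ 1 := (Nat.dvd_add_right (dvd_mul_right p n)).1 hd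
    have h3 := Nat.le_of_dvd one_pos h2
    omega
  constructor
  · by_cases hB : B = 0
    · rw [hB]; simp
    · have h1 : (B ^ p + Polynomial.X * c ^ p).coeff (p * B.natDegree) ≠ 0 := by
        rw [hodd]
        apply pow_ne_zero
        rw [Polynomial.coeff_natDegree]
        exact Polynomial.leadingCoeff_ne_zero.2 hB
      refine le_trans ?_ (Polynomial.le_natDegree_of_ne_zero h1)
      nlinarith
  · by_cases hc : c = 0
    · rw [hc]; simp
    · have h1 : (B ^ p + Polynomial.X * c ^ p).coeff (p * c.natDegree + 1) ≠ 0 := by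
        rw [heven]
        apply pow_ne_zero
        rw [Polynomial.coeff_natDegree]
        exact Polynomial.leadingCoeff_ne_zero.2 hc
      refine le_trans ?_ (Polynomial.le_natDegree_of_ne_zero h1)
      nlinarith

theorem degreeOf_W_le (f : (MvPolynomial (Fin 2) K)) (d : ℕ) (h : (Phi1 f).natDegree ≤ d) : f.degreeOf 0 ≤ d := by
  rw [MvPolynomial.degreeOf_le_iff]
  intro m hm
  by_contra hlt
  push Not at hlt
  rw [MvPolynomial.mem_support_iff] at hm
  apply hm
  have h1 : m = Finsupp.single 0 (m 0) + Finsupp.single 1 (m 1) := by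
    ext i; fin_cases i <;> simp
  rw [h1, ← coeff_Phi1, Polynomial.coeff_eq_zero_of_natDegree_lt (lt_of_le_of_lt h hlt),
    Polynomial.coeff_zero]

theorem degreeOf_Z_le (f : (MvPolynomial (Fin 2) K)) (d : ℕ) (h : (Phi2 f).natDegree ≤ d) : f.degreeOf 1 ≤ d := by
  rw [MvPolynomial.degreeOf_le_iff]
  intro m hm
  by_contra hlt
  push Not at hlt
  rw [MvPolynomial.mem_support_iff] at hm
  apply hm
  have h1 : m = Finsupp.single 0 (m 0) + Finsupp.single 1 (m 1) := by
    ext i; fin_cases i <;> simp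
  rw [h1, ← coeff_Phi2, Polynomial.coeff_eq_zero_of_natDegree_lt (lt_of_le_of_lt h hlt),
    Polynomial.coeff_zero]

theorem finite_degree [Finite K] (a b : ℕ) :
    {f : (MvPolynomial (Fin 2) K) | f.degreeOf 0 ≤ a ∧ f.degreeOf 1 ≤ b}.Finite := by
  refine (finite_box (K := K) a b).subset ?_
  rintro f ⟨h0, h1⟩
  rw [MvPolynomial.degreeOf_le_iff] at h0 h1
  constructor
  · rw [Polynomial.natDegree_le_iff_coeff_eq_zero]
    intro N hN
    ext i
    rw [coeff_Phi1, Polynomial.coeff_zero]
    by_contra hne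
    have := h0 _ (MvPolynomial.mem_support_iff.2 hne)
    simp at this
    omega
  · rw [Polynomial.natDegree_le_iff_coeff_eq_zero]
    intro N hN
    ext l
    rw [coeff_Phi2, Polynomial.coeff_zero]
    by_contra hne
    have := h1 _ (MvPolynomial.mem_support_iff.2 hne)
    simp at this
    omega


/-- The link, in terms of one polynomial equation. -/
theorem main (K : Type) [Field K] [Finite K] :
    ∃ (k : ℕ) (P : MvPolynomial (Fin 2 ⊕ Fin k) (MvPolynomial (Fin 2) K)),
      (∀ f : MvPolynomial (Fin 2) K, ∃ g : Polynomial K, ∃ y : Fin k → MvPolynomial (Fin 2) K,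
        MvPolynomial.eval (Sum.elim ![f, Polynomial.aeval (MvPolynomial.X 1) g] y) P = 0) ∧
      (∀ (f : MvPolynomial (Fin 2) K) (g : Polynomial K),
        (∃ y : Fin k → MvPolynomial (Fin 2) K,
          MvPolynomial.eval (Sum.elim ![f, Polynomial.aeval (MvPolynomial.X 1) g] y) P = 0) →
        f.degreeOf 0 ≤ g.natDegree ∧ f.degreeOf 1 ≤ g.natDegree + 1) := by
  obtain ⟨p, hpc⟩ := CharP.exists K
  have hp : Fact p.Prime := ⟨CharP.char_is_prime K p⟩
  obtain ⟨ν, hν⟩ := exists_nu (K := K) p hp.out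
  obtain ⟨P, hP⟩ := link1 (K := K) p ν
  obtain ⟨k, P', hP'⟩ := reindex1 P
  refine ⟨k, P', fun f => ?_, fun f g hfg => ?_⟩
  · obtain ⟨B, c, h1, x, y, s, Y, hS⟩ := sys_exists p ν f
    refine ⟨B ^ p + Polynomial.X * c ^ p, ?_⟩
    rw [hP', hP]
    refine ⟨_, _, h1, x, y, s, Y, hS, ?_⟩
    simp
  · rw [hP', hP] at hfg
    obtain ⟨a, b, h1, x, y, s, Y, hS, hg⟩ := hfg
    obtain ⟨B, c, rfl, rfl, hBc⟩ := split_aux p a b g hg
    obtain ⟨d1, d2⟩ := sys_degree p ν hν B c f h1 x y s Y hS
    obtain ⟨d3, d4⟩ := natDegree_split p B c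
    rw [hBc]
    exact ⟨degreeOf_W_le f _ (d1.trans d3), degreeOf_Z_le f _ (d2.trans (by omega))⟩

end Pool.Agent.DLink.One
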